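import Mathlib

open scoped Topology ENNReal NNReal
open Filter Metric Set Asymptotics

namespace Pool.Agent.H809Z.Berg

section Taylor

variable {E : Type*} [NormedAddCommGroup E] [NormedSpace ℝ E]

/-- uniform second order Taylor formula -/
lemma taylor2 {φ : E → ℝ} {p : E} (hφ : ContDiffAt ℝ 2 φ p) :
    (fun z : E × E => φ (z.1 + z.2) - φ z.1 - fderiv ℝ φ z.1 z.2 -
      1 / 2 * fderiv ℝ (fderiv ℝ φ) p z.2 z.2) =o[𝓝 (p, 0)] fun z => ‖z.2‖ ^ 2 := by
  have h1 : ContDiffAt ℝ 1 (fderiv ℝ φ) p := hφ.fderiv_right (by norm_num)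
  have h2 : HasStrictFDerivAt (fderiv ℝ φ) (fderiv ℝ (fderiv ℝ φ) p) p :=
    h1.hasStrictFDerivAt (by norm_num)
  set H := fderiv ℝ (fderiv ℝ φ) p with hH
  rw [isLittleO_iff]
  intro ε hε
  have h3 := (h2.isLittleO.def hε)
  have h4 : ∀ᶠ y in 𝓝 p, DifferentiableAt ℝ φ y :=
    (hφ.eventually (by simp)).mono fun y hy => hy.differentiableAt (by norm_num)
  obtain ⟨η₁, hη₁, h5⟩ := Metric.eventually_nhds_iff.mp h3
  obtain ⟨η₂, hη₂, h6⟩ := Metric.eventually_nhds_iff.mp h4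
  set η := min η₁ η₂ with hη
  have hη0 : 0 < η := lt_min hη₁ hη₂
  rw [Metric.eventually_nhds_iff]
  refine ⟨η / 2, by positivity, ?_⟩
  rintro ⟨y, h⟩ hz
  rw [Prod.dist_eq, max_lt_iff] at hz
  obtain ⟨hy, hh⟩ := hz
  simp only [dist_zero_right] at hy hh
  have hin : ∀ t ∈ Icc (0 : ℝ) 1, dist (y + t • h) p < η := by
    intro t ht
    calc dist (y + t • h) p ≤ dist (y + t • h) y + dist y p := dist_triangle _ _ _
      _ = ‖t • h‖ + dist y p := by rw [dist_eq_norm, add_sub_cancel_left]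
      _ ≤ ‖h‖ + dist y p := by
          rw [norm_smul, Real.norm_of_nonneg ht.1]
          nlinarith [norm_nonneg h, ht.1, ht.2]
      _ < η := by linarith
  set ψ : ℝ → ℝ := fun t => φ (y + t • h) - t * fderiv ℝ φ y h - t ^ 2 / 2 * H h h with hψ
  have hder : ∀ t ∈ Icc (0 : ℝ) 1, HasDerivWithinAt ψ
      (fderiv ℝ φ (y + t • h) h - fderiv ℝ φ y h - t * H h h) (Icc 0 1) t := by
    intro t ht
    have a1 : HasDerivAt (fun t : ℝ => y + t • h) h t := by
      simpa using ((hasDerivAt_id t).smul_const h).const_add y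
    have a2 : HasFDerivAt φ (fderiv ℝ φ (y + t • h)) (y + t • h) :=
      (h6 ((hin t ht).trans_le (min_le_right _ _))).hasFDerivAt
    have a3 := a2.comp_hasDerivAt t a1
    have a4 : HasDerivAt (fun t : ℝ => t * fderiv ℝ φ y h) (fderiv ℝ φ y h) t := by
      simpa using (hasDerivAt_id t).mul_const (fderiv ℝ φ y h)
    have a5 : HasDerivAt (fun t : ℝ => t ^ 2 / 2 * H h h) (t * H h h) t := by
      have := ((hasDerivAt_pow 2 t).div_const 2).mul_const (H h h)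
      refine this.congr_deriv ?_
      norm_num
    exact ((a3.sub a4).sub a5).hasDerivWithinAt
  have hbd : ∀ t ∈ Ico (0 : ℝ) 1,
      ‖fderiv ℝ φ (y + t • h) h - fderiv ℝ φ y h - t * H h h‖ ≤ ε * ‖h‖ ^ 2 := by
    intro t ht
    have b1 : dist (y + t • h, y) (p, p) < η₁ := by
      rw [Prod.dist_eq, max_lt_iff]
      refine ⟨(hin t ⟨ht.1, ht.2.le⟩).trans_le (min_le_left _ _), ?_⟩
      have : η ≤ η₁ := min_le_left _ _
      simp only
      linarith
    have b2 := h5 b1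
    simp only [add_sub_cancel_left] at b2
    have b3 : fderiv ℝ φ (y + t • h) h - fderiv ℝ φ y h - t * H h h =
        (fderiv ℝ φ (y + t • h) - fderiv ℝ φ y - H (t • h)) h := by
      simp
    rw [b3]
    refine (ContinuousLinearMap.le_opNorm _ _).trans ?_
    have b4 : ‖t • h‖ ≤ ‖h‖ := by
      rw [norm_smul, Real.norm_of_nonneg ht.1]
      nlinarith [norm_nonneg h, ht.1, ht.2]
    calc _ ≤ ε * ‖t • h‖ * ‖h‖ := by gcongr
      _ ≤ ε * ‖h‖ * ‖h‖ := by gcongr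
      _ = ε * ‖h‖ ^ 2 := by ring
  have hfin := norm_image_sub_le_of_norm_deriv_le_segment_01' hder hbd
  simp only [hψ, one_smul, zero_smul, add_zero, one_mul, zero_mul, one_pow, sub_zero] at hfin
  simp only [norm_pow, norm_norm]
  norm_num at hfin ⊢
  have e : φ (y + h) - φ y - (fderiv ℝ φ y) h - 1 / 2 * (H h) h =
      φ (y + h) - (fderiv ℝ φ y) h - 1 / 2 * (H h) h - φ y := by ring
  rw [e]
  exact hfin

lemma bilin_littleO {ι : Type*} {l : Filter ι} (H : E →L[ℝ] E →L[ℝ] ℝ) {h k : ι → E} {t : ι → ℝ}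
    (h1 : (fun z => h z - k z) =o[l] t) (h2 : k =O[l] t) :
    (fun z => H (h z) (h z) - H (k z) (k z)) =o[l] fun z => t z ^ 2 := by
  have h3 : h =O[l] t := by
    have := h1.isBigO.add h2
    simpa using this
  have hb : ∀ a b : ι → E, (fun z => H (a z) (b z)) =O[l] fun z => ‖a z‖ * ‖b z‖ := by
    intro a b
    apply IsBigO.of_bound ‖H‖
    filter_upwards with z
    rw [Real.norm_of_nonneg (mul_nonneg (norm_nonneg _) (norm_nonneg _)), ← mul_assoc]
    exact H.le_opNorm₂ _ _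
  have e : (fun z => H (h z) (h z) - H (k z) (k z)) =
      fun z => H (h z - k z) (h z) + H (k z) (h z - k z) := by
    funext z
    simp
  have e2 : (fun z => t z ^ 2) = fun z => t z * t z := by
    funext z; ring
  rw [e, e2]
  apply IsLittleO.add
  · exact (hb _ _).trans_isLittleO (h1.norm_left.mul_isBigO h3.norm_left)
  · exact (hb _ _).trans_isLittleO (h2.norm_left.mul_isLittleO h1.norm_left)

lemma lin_littleO {ι : Type*} {l : Filter ι} {A : ι → E →L[ℝ] ℝ} {k : ι → E} {t : ι → ℝ}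
    (h1 : Tendsto A l (𝓝 0)) (h2 : k =O[l] t) : (fun z => A z (k z)) =o[l] t := by
  have hb : (fun z => A z (k z)) =O[l] fun z => ‖A z‖ * ‖k z‖ := by
    apply IsBigO.of_bound 1
    filter_upwards with z
    rw [Real.norm_of_nonneg (mul_nonneg (norm_nonneg _) (norm_nonneg _)), one_mul]
    exact (A z).le_opNorm _
  have h3 : (fun z => ‖A z‖) =o[l] fun _ => (1 : ℝ) := by
    rw [isLittleO_one_iff]
    exact tendsto_zero_iff_norm_tendsto_zero.mp h1
  have := hb.trans_isLittleO (h3.mul_isBigO h2.norm_left)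
  simpa using this

end Taylor

variable {n : ℕ}

/-- complexification of a real functional -/
noncomputable def cx (L : (Fin n → ℂ) →L[ℝ] ℝ) (u : Fin n → ℂ) : ℂ :=
  (L u : ℂ) - Complex.I * (L (Complex.I • u) : ℂ)

lemma smul_decomp (ζ : ℂ) (u : Fin n → ℂ) : ζ • u = ζ.re • u + ζ.im • (Complex.I • u) := by
  funext j
  simp only [Pi.add_apply, Pi.smul_apply, smul_eq_mul, Complex.real_smul]
  conv_lhs => rw [← Complex.re_add_im ζ]
  ring

lemma cx_re (L : (Fin n → ℂ) →L[ℝ] ℝ) (ζ : ℂ) (u : Fin n → ℂ) :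
    L (ζ • u) = (ζ * cx L u).re := by
  rw [smul_decomp, map_add, map_smul, map_smul]
  simp [cx]

/-- coefficient of the tangent vector field -/
noncomputable def beta (r : (Fin n → ℂ) → ℝ) (N v q : Fin n → ℂ) : ℂ :=
  -(cx (fderiv ℝ r q) v) / cx (fderiv ℝ r q) N

/-- the family of quadratic discs -/
noncomputable def hh (r : (Fin n → ℂ) → ℝ) (N v : Fin n → ℂ) (α ζ : ℂ) (q : Fin n → ℂ) :
    Fin n → ℂ :=
  ζ • v + (ζ * beta r N v q + α * ζ ^ 2) • N

/-- local data at the contact point -/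
structure Setup (r ρ : (Fin n → ℂ) → ℝ) (p N v : Fin n → ℂ) : Prop where
  hr : ContDiffAt ℝ 2 r p
  hρ : ContDiffAt ℝ 2 ρ p
  hd : fderiv ℝ ρ p = fderiv ℝ r p
  hN : fderiv ℝ r p N = 1
  hN' : fderiv ℝ r p (Complex.I • N) = 0
  hv : fderiv ℝ r p v = 0
  hv' : fderiv ℝ r p (Complex.I • v) = 0

variable {r ρ : (Fin n → ℂ) → ℝ} {p N v : Fin n → ℂ}

lemma contDiffAt_cx (hr : ContDiffAt ℝ 2 r p) (u : Fin n → ℂ) :
    ContDiffAt ℝ 1 (fun q => cx (fderiv ℝ r q) u) p := by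
  have h1 : ContDiffAt ℝ 1 (fderiv ℝ r) p := hr.fderiv_right (by norm_num)
  have h2 : ∀ w : Fin n → ℂ, ContDiffAt ℝ 1 (fun q => ((fderiv ℝ r q w : ℝ) : ℂ)) p := by
    intro w
    exact Complex.ofRealCLM.contDiff.contDiffAt.comp p (h1.clm_apply contDiffAt_const)
  exact (h2 u).sub (contDiffAt_const.mul (h2 _))

lemma Setup.cxN (h : Setup r ρ p N v) : cx (fderiv ℝ r p) N = 1 := by
  simp [cx, h.hN, h.hN']

lemma Setup.cxv (h : Setup r ρ p N v) : cx (fderiv ℝ r p) v = 0 := by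
  simp [cx, h.hv, h.hv']

lemma Setup.contDiffAt_beta (h : Setup r ρ p N v) : ContDiffAt ℝ 1 (beta r N v) p := by
  unfold beta
  simp only [div_eq_mul_inv]
  refine (contDiffAt_cx h.hr v).neg.mul ((contDiffAt_cx h.hr N).inv ?_)
  rw [h.cxN]; exact one_ne_zero

lemma Setup.beta_p (h : Setup r ρ p N v) : beta r N v p = 0 := by
  simp [beta, h.cxv]

lemma Setup.tangent (h : Setup r ρ p N v) : ∀ᶠ q in 𝓝 p, ∀ ζ : ℂ,
    fderiv ℝ r q (ζ • v + (ζ * beta r N v q) • N) = 0 := by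
  have h1 : ∀ᶠ q in 𝓝 p, cx (fderiv ℝ r q) N ≠ 0 := by
    apply (contDiffAt_cx h.hr N).continuousAt.eventually_ne
    rw [h.cxN]; exact one_ne_zero
  filter_upwards [h1] with q hq ζ
  rw [map_add, cx_re, cx_re, ← Complex.add_re]
  have : ζ * cx (fderiv ℝ r q) v + ζ * beta r N v q * cx (fderiv ℝ r q) N = 0 := by
    unfold beta
    field_simp
    ring
  rw [this, Complex.zero_re]

lemma Setup.tendsto_beta (h : Setup r ρ p N v) :
    Tendsto (fun z : (Fin n → ℂ) × ℂ => beta r N v z.1) (𝓝 (p, 0)) (𝓝 0) := by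
  have := h.contDiffAt_beta.continuousAt.tendsto
  rw [h.beta_p] at this
  exact this.comp (continuous_fst.tendsto' _ _ rfl)

lemma Setup.hh_sub (h : Setup r ρ p N v) (α : ℂ) :
    (fun z : (Fin n → ℂ) × ℂ => hh r N v α z.2 z.1 - z.2 • v) =o[𝓝 (p, 0)] fun z => ‖z.2‖ := by
  have e : (fun z : (Fin n → ℂ) × ℂ => hh r N v α z.2 z.1 - z.2 • v) =
      fun z => ((beta r N v z.1 + α * z.2) * z.2) • N := by
    funext z
    unfold hh
    rw [add_sub_cancel_left]
    congr 1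
    ring
  rw [e]
  have h1 : Tendsto (fun z : (Fin n → ℂ) × ℂ => beta r N v z.1 + α * z.2) (𝓝 (p, 0)) (𝓝 0) := by
    have h2 : Tendsto (fun z : (Fin n → ℂ) × ℂ => α * z.2) (𝓝 (p, 0)) (𝓝 0) :=
      Continuous.tendsto' (by fun_prop) _ _ (by simp)
    simpa using h.tendsto_beta.add h2
  have h3 : (fun z : (Fin n → ℂ) × ℂ => beta r N v z.1 + α * z.2) =o[𝓝 (p, 0)]
      fun _ => (1 : ℂ) := (isLittleO_one_iff ℂ).mpr h1
  have h4 := h3.mul_isBigO (isBigO_refl (fun z : (Fin n → ℂ) × ℂ => z.2) (𝓝 (p, 0)))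
  simp only [one_mul] at h4
  have h5 : (fun z : (Fin n → ℂ) × ℂ => ((beta r N v z.1 + α * z.2) * z.2) • N) =O[𝓝 (p, 0)]
      fun z => (beta r N v z.1 + α * z.2) * z.2 := by
    apply IsBigO.of_bound ‖N‖
    filter_upwards with z
    rw [norm_smul, mul_comm]
  exact (h5.trans_isLittleO h4).norm_right

lemma smul_bigO (p v : Fin n → ℂ) :
    (fun z : (Fin n → ℂ) × ℂ => z.2 • v) =O[𝓝 (p, 0)] fun z => ‖z.2‖ := by
  apply IsBigO.of_bound ‖v‖
  filter_upwards with z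
  rw [norm_smul, mul_comm, norm_norm]

lemma Setup.hh_bigO (h : Setup r ρ p N v) (α : ℂ) :
    (fun z : (Fin n → ℂ) × ℂ => hh r N v α z.2 z.1) =O[𝓝 (p, 0)] fun z => ‖z.2‖ := by
  have := (h.hh_sub α).isBigO.add (smul_bigO p v)
  simpa using this

lemma Setup.tendsto_hh (h : Setup r ρ p N v) (α : ℂ) :
    Tendsto (fun z : (Fin n → ℂ) × ℂ => hh r N v α z.2 z.1) (𝓝 (p, 0)) (𝓝 0) := by
  apply (h.hh_bigO α).trans_tendsto
  exact Continuous.tendsto' (by fun_prop) _ _ (by simp)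

lemma Setup.tendsto_Phi (h : Setup r ρ p N v) (α : ℂ) :
    Tendsto (fun z : (Fin n → ℂ) × ℂ => z.1 + hh r N v α z.2 z.1) (𝓝 (p, 0)) (𝓝 p) := by
  have h1 : Tendsto (fun z : (Fin n → ℂ) × ℂ => z.1) (𝓝 (p, 0)) (𝓝 p) :=
    continuous_fst.tendsto' _ _ rfl
  simpa using h1.add (h.tendsto_hh α)

lemma sq_bigO (p N : Fin n → ℂ) (α : ℂ) :
    (fun z : (Fin n → ℂ) × ℂ => (α * z.2 ^ 2) • N) =O[𝓝 (p, 0)] fun z => ‖z.2‖ ^ 2 := by
  apply IsBigO.of_bound (‖α‖ * ‖N‖)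
  filter_upwards with z
  rw [norm_smul, norm_mul, norm_pow, norm_pow, norm_norm]
  apply le_of_eq; ring

/-- the holomorphic second order coefficient -/
noncomputable def alpha (r : (Fin n → ℂ) → ℝ) (p v : Fin n → ℂ) : ℂ :=
  ⟨-(fderiv ℝ (fderiv ℝ r) p v v - fderiv ℝ (fderiv ℝ r) p (Complex.I • v) (Complex.I • v)) / 4,
    (fderiv ℝ (fderiv ℝ r) p v (Complex.I • v) + fderiv ℝ (fderiv ℝ r) p (Complex.I • v) v) / 4⟩

/-- the Levi form -/
noncomputable def levi (r : (Fin n → ℂ) → ℝ) (p v : Fin n → ℂ) : ℝ :=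
  (fderiv ℝ (fderiv ℝ r) p v v + fderiv ℝ (fderiv ℝ r) p (Complex.I • v) (Complex.I • v)) / 4

lemma bilin_expand (H : (Fin n → ℂ) →L[ℝ] (Fin n → ℂ) →L[ℝ] ℝ) (ζ : ℂ) (v : Fin n → ℂ) :
    H (ζ • v) (ζ • v) = ζ.re ^ 2 * H v v + ζ.re * ζ.im * (H v (Complex.I • v) +
      H (Complex.I • v) v) + ζ.im ^ 2 * H (Complex.I • v) (Complex.I • v) := by
  rw [smul_decomp]
  simp only [map_add, map_smul, add_apply, smul_apply,
    smul_eq_mul]
  ring

lemma alpha_levi (r : (Fin n → ℂ) → ℝ) (p v : Fin n → ℂ) (ζ : ℂ) :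
    (alpha r p v * ζ ^ 2).re + 1 / 2 * fderiv ℝ (fderiv ℝ r) p (ζ • v) (ζ • v) =
      levi r p v * ‖ζ‖ ^ 2 := by
  rw [bilin_expand, Complex.sq_norm, Complex.normSq_apply]
  simp only [alpha, levi, Complex.mul_re, sq, Complex.mul_im]
  ring

/-- `r` along the discs -/
lemma Setup.G1 (h : Setup r ρ p N v) :
    (fun z : (Fin n → ℂ) × ℂ => r (z.1 + hh r N v (alpha r p v) z.2 z.1) - r z.1 -
      levi r p v * ‖z.2‖ ^ 2) =o[𝓝 (p, 0)] fun z => ‖z.2‖ ^ 2 := by
  set α := alpha r p v with hα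
  set H := fderiv ℝ (fderiv ℝ r) p with hH
  have hfst : Tendsto (fun z : (Fin n → ℂ) × ℂ => z.1) (𝓝 (p, 0)) (𝓝 p) :=
    continuous_fst.tendsto' _ _ rfl
  have t1 := (taylor2 h.hr).comp_tendsto (hfst.prodMk_nhds (h.tendsto_hh α))
  have t1' := t1.trans_isBigO ((h.hh_bigO α).norm_left.pow 2)
  have t2 := bilin_littleO H (h.hh_sub α) (smul_bigO p v)
  have hD : Tendsto (fun z : (Fin n → ℂ) × ℂ => fderiv ℝ r z.1 - fderiv ℝ r p) (𝓝 (p, 0))
      (𝓝 0) := by
    have h1 : ContDiffAt ℝ 1 (fderiv ℝ r) p := h.hr.fderiv_right (by norm_num)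
    have := (h1.continuousAt.tendsto.comp hfst).sub_const (fderiv ℝ r p)
    simpa using this
  have t3 := lin_littleO hD (sq_bigO p N α)
  have t4 := (t1'.add (t2.const_mul_left (1 / 2))).add t3
  refine t4.congr' ?_ EventuallyEq.rfl
  filter_upwards [hfst.eventually h.tangent] with z hz
  have e1 := hz z.2
  have e2 : fderiv ℝ r z.1 (hh r N v α z.2 z.1) = fderiv ℝ r z.1 ((α * z.2 ^ 2) • N) := by
    unfold hh
    rw [add_smul, ← add_assoc, map_add, e1, zero_add]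
  have e3 : fderiv ℝ r p ((α * z.2 ^ 2) • N) = (α * z.2 ^ 2).re := by
    rw [cx_re, h.cxN, mul_one]
  have e4 := alpha_levi r p v z.2
  simp only [Function.comp_apply, sub_apply]
  rw [e2, e3, ← e4]
  ring

/-- `ρ - r` along the discs -/
lemma Setup.G2 (h : Setup r ρ p N v) (α : ℂ) :
    (fun z : (Fin n → ℂ) × ℂ => (ρ - r) z.1 - (ρ - r) (z.1 + hh r N v α z.2 z.1) +
      fderiv ℝ (ρ - r) (z.1 + hh r N v α z.2 z.1)
        (z.2 • v + (z.2 * beta r N v (z.1 + hh r N v α z.2 z.1)) • N) -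
      1 / 2 * fderiv ℝ (fderiv ℝ (ρ - r)) p (z.2 • v) (z.2 • v)) =o[𝓝 (p, 0)]
      fun z => ‖z.2‖ ^ 2 := by
  set g := ρ - r with hg
  have hgc : ContDiffAt ℝ 2 g p := h.hρ.sub h.hr
  set G := fderiv ℝ (fderiv ℝ g) p with hG
  have hfst : Tendsto (fun z : (Fin n → ℂ) × ℂ => z.1) (𝓝 (p, 0)) (𝓝 p) :=
    continuous_fst.tendsto' _ _ rfl
  have hneg : Tendsto (fun z : (Fin n → ℂ) × ℂ => -hh r N v α z.2 z.1) (𝓝 (p, 0)) (𝓝 0) := by
    simpa using (h.tendsto_hh α).neg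
  have t1 := (taylor2 hgc).comp_tendsto ((h.tendsto_Phi α).prodMk_nhds hneg)
  have t1' := t1.trans_isBigO ((h.hh_bigO α).neg_left.norm_left.pow 2)
  have t2 := bilin_littleO G (h.hh_sub α) (smul_bigO p v)
  have hg0 : fderiv ℝ g p = 0 := by
    rw [hg, fderiv_sub (h.hρ.differentiableAt (by norm_num)) (h.hr.differentiableAt (by norm_num)),
      h.hd, sub_self]
  have hD : Tendsto (fun z : (Fin n → ℂ) × ℂ => fderiv ℝ g (z.1 + hh r N v α z.2 z.1)) (𝓝 (p, 0))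
      (𝓝 0) := by
    have h1 : ContDiffAt ℝ 1 (fderiv ℝ g) p := hgc.fderiv_right (by norm_num)
    have := h1.continuousAt.tendsto.comp (h.tendsto_Phi α)
    rwa [hg0] at this
  have hβ : (fun z : (Fin n → ℂ) × ℂ => beta r N v (z.1 + hh r N v α z.2 z.1) - beta r N v z.1)
      =O[𝓝 (p, 0)] fun z => ‖z.2‖ := by
    have h1 := (h.contDiffAt_beta.hasStrictFDerivAt (by norm_num)).isBigO_sub
    have h2 := h1.comp_tendsto ((h.tendsto_Phi α).prodMk_nhds hfst)
    refine IsBigO.trans ?_ (h.hh_bigO α)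
    simpa [Function.comp_def] using h2
  have hk : (fun z : (Fin n → ℂ) × ℂ => (z.2 * (beta r N v (z.1 + hh r N v α z.2 z.1) -
      beta r N v z.1)) • N - (α * z.2 ^ 2) • N) =O[𝓝 (p, 0)] fun z => ‖z.2‖ ^ 2 := by
    apply IsBigO.sub _ (sq_bigO p N α)
    have h1 : (fun z : (Fin n → ℂ) × ℂ => (z.2 * (beta r N v (z.1 + hh r N v α z.2 z.1) -
        beta r N v z.1)) • N) =O[𝓝 (p, 0)] fun z => ‖z.2‖ *
          ‖beta r N v (z.1 + hh r N v α z.2 z.1) - beta r N v z.1‖ := by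
      apply IsBigO.of_bound ‖N‖
      filter_upwards with z
      rw [norm_smul, norm_mul, Real.norm_of_nonneg (by positivity), mul_comm]
    have h2 := (isBigO_refl (fun z : (Fin n → ℂ) × ℂ => ‖z.2‖) (𝓝 (p, 0))).mul hβ.norm_left
    have := h1.trans h2
    simpa [sq] using this
  have t3 := lin_littleO hD hk
  have t4 := (t1'.add (t2.const_mul_left (1 / 2))).add t3
  refine t4.congr' ?_ EventuallyEq.rfl
  filter_upwards with z
  simp only [Function.comp_apply, add_neg_cancel_right, map_neg, neg_apply,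
    neg_neg]
  set x := z.1 + hh r N v α z.2 z.1
  have e : z.2 • v + (z.2 * beta r N v x) • N = hh r N v α z.2 z.1 +
      ((z.2 * (beta r N v x - beta r N v z.1)) • N - (α * z.2 ^ 2) • N) := by
    unfold hh
    funext j
    simp only [Pi.add_apply, Pi.smul_apply, Pi.sub_apply, smul_eq_mul]
    ring
  rw [e, map_add]
  ring

end Pool.Agent.H809Z.Berg
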