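import Mathlib

open MeasureTheory Topology Filter
open scoped NNReal

namespace Pool.Agent.H809Z.BergDefs

/-- The open Euclidean ball of centre `c` and radius `R` in `ℂⁿ`. -/
def euclBall {n : ℕ} (c : Fin n → ℂ) (R : ℝ) : Set (Fin n → ℂ) :=
  {z | ∑ j, ‖z j - c j‖ ^ 2 < R ^ 2}

/-- `r` is a `C²` local defining function for `Ω` near `p`: on some open neighbourhood `U` of `p`,
`r` is `C²` with `dr ≠ 0`, and `Ω ∩ U = {z ∈ U : r z < 0}`. -/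
def IsLocalDefiningFunction {n : ℕ} (Ω : Set (Fin n → ℂ)) (p : Fin n → ℂ)
    (r : (Fin n → ℂ) → ℝ) : Prop :=
  ∃ U : Set (Fin n → ℂ), IsOpen U ∧ p ∈ U ∧ ContDiffOn ℝ 2 r U ∧
    (∀ z ∈ U, fderiv ℝ r z ≠ 0) ∧ Ω ∩ U = {z | z ∈ U ∧ r z < 0}

/-- `f` belongs to the Bergman space `A²(Ω)`: it is holomorphic on `Ω` and square integrable on `Ω`
with respect to Lebesgue measure on `ℂⁿ`. -/
def MemBergman {n : ℕ} (Ω : Set (Fin n → ℂ)) (f : (Fin n → ℂ) → ℂ) : Prop :=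
  DifferentiableOn ℂ f Ω ∧ MemLp f 2 ((volume : Measure (Fin n → ℂ)).restrict Ω)

/-- The restriction operator `A²(Ω₁) → A²(Ω₂)` (for `Ω₂ ⊆ Ω₁`) is compact: every sequence which is
bounded in the norm of `A²(Ω₁)` has a subsequence whose restrictions to `Ω₂` converge in the norm of
`A²(Ω₂)` to an element of `A²(Ω₂)`. -/
def RestrictionIsCompact {n : ℕ} (Ω₁ Ω₂ : Set (Fin n → ℂ)) : Prop :=
  ∀ (f : ℕ → (Fin n → ℂ) → ℂ) (C : ℝ≥0),
    (∀ j, MemBergman Ω₁ (f j)) →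
    (∀ j, eLpNorm (f j) 2 ((volume : Measure (Fin n → ℂ)).restrict Ω₁) ≤ C) →
    ∃ (g : (Fin n → ℂ) → ℂ) (φ : ℕ → ℕ), MemBergman Ω₂ g ∧ StrictMono φ ∧
      Tendsto (fun j => eLpNorm (f (φ j) - g) 2 ((volume : Measure (Fin n → ℂ)).restrict Ω₂))
        atTop (𝓝 0)

/-- The Levi form `∑ ∂²r/∂z_j∂z̄_k (p) v_j v̄_k`, written with the real Hessian of `r` at `p`:
`(D²r(p)(v, v) + D²r(p)(iv, iv)) / 4`. -/
noncomputable def leviForm {n : ℕ} (r : (Fin n → ℂ) → ℝ) (p v : Fin n → ℂ) : ℝ :=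
  (fderiv ℝ (fderiv ℝ r) p v v +
    fderiv ℝ (fderiv ℝ r) p (Complex.I • v) (Complex.I • v)) / 4

end Pool.Agent.H809Z.BergDefs
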