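import Pool.Agent.Helper853.Bk.Bergman

open scoped Topology ENNReal NNReal
open MeasureTheory Filter Metric Set

namespace Pool.Agent.H809Z.Berg

/-- the annulus `s/2 ≤ |ζ|² ≤ s` -/
def ann (s : ℝ) : Set ℂ := {ζ | s / 2 ≤ ‖ζ‖ ^ 2 ∧ ‖ζ‖ ^ 2 ≤ s}

lemma measurableSet_ann (s : ℝ) : MeasurableSet (ann s) := by
  have h1 : IsClosed {ζ : ℂ | s / 2 ≤ ‖ζ‖ ^ 2} := isClosed_le continuous_const (by fun_prop)
  have h2 : IsClosed {ζ : ℂ | ‖ζ‖ ^ 2 ≤ s} := isClosed_le (by fun_prop) continuous_const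
  exact (h1.inter h2).measurableSet

lemma le_volume_ann {s : ℝ} (hs : 0 ≤ s) : ENNReal.ofReal s ≤ volume (ann s) := by
  have hsub : closedBall (0 : ℂ) (Real.sqrt s) ⊆ ann s ∪ ball 0 (Real.sqrt (s / 2)) := by
    intro ζ hζ
    rw [mem_closedBall_zero_iff] at hζ
    have h1 : ‖ζ‖ ^ 2 ≤ s := by
      have := pow_le_pow_left₀ (norm_nonneg ζ) hζ 2
      rwa [Real.sq_sqrt hs] at this
    by_cases h : s / 2 ≤ ‖ζ‖ ^ 2
    · exact Or.inl ⟨h, h1⟩
    · right
      rw [mem_ball_zero_iff]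
      exact Real.lt_sqrt_of_sq_lt (not_le.mp h)
  have h2 := (measure_mono (μ := volume) hsub).trans (measure_union_le _ _)
  rw [Complex.volume_closedBall, Complex.volume_ball] at h2
  have hpi : (NNReal.pi : ℝ≥0∞) = ENNReal.ofReal Real.pi := by
    rw [← ENNReal.ofReal_coe_nnreal]; rfl
  rw [hpi, ← ENNReal.ofReal_pow (Real.sqrt_nonneg _), ← ENNReal.ofReal_pow (Real.sqrt_nonneg _),
    Real.sq_sqrt hs, Real.sq_sqrt (by positivity), ← ENNReal.ofReal_mul hs,
    ← ENNReal.ofReal_mul (by positivity)] at h2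
  have h3 : ENNReal.ofReal s + ENNReal.ofReal (s / 2 * Real.pi) ≤
      ENNReal.ofReal (s * Real.pi) := by
    rw [← ENNReal.ofReal_add hs (by positivity)]
    apply ENNReal.ofReal_le_ofReal
    nlinarith [Real.pi_gt_three]
  exact (ENNReal.add_le_add_iff_right ENNReal.ofReal_ne_top).mp (h3.trans h2)

/-- sub-mean value inequality over an annulus -/
lemma submean_ann {F : ℂ → ℂ} (hFm : Measurable F) {s : ℝ} (hs : 0 ≤ s)
    (hF : ∀ ζ : ℂ, ‖ζ‖ ^ 2 ≤ s → DifferentiableAt ℂ F ζ) :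
    ENNReal.ofReal (‖F 0‖ ^ 2) * ENNReal.ofReal s ≤
      ∫⁻ ζ in ann s, ENNReal.ofReal (‖F ζ‖ ^ 2) := by
  refine le_trans (mul_le_mul_right (le_volume_ann hs) _) ?_
  have hpi : (0 : ℝ) < 2 * Real.pi := by positivity
  set H : ℂ → ℝ≥0∞ := (ann s).indicator fun w => ENNReal.ofReal (‖F w‖ ^ 2) with hH
  have hHm : Measurable H := by
    apply Measurable.indicator _ (measurableSet_ann s)
    exact ENNReal.measurable_ofReal.comp (hFm.norm.pow_const 2)
  have hrotmem : ∀ (θ : ℝ) (w : ℂ), Complex.exp (θ * Complex.I) * w ∈ ann s ↔ w ∈ ann s := by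
    intro θ w
    simp only [ann, mem_setOf_eq, norm_mul, Complex.norm_exp_ofReal_mul_I, one_mul]
  have hpt : ∀ w ∈ ann s, ENNReal.ofReal (2 * Real.pi) * ENNReal.ofReal (‖F 0‖ ^ 2) ≤
      ∫⁻ θ in Set.Ioc (0 : ℝ) (2 * Real.pi), H (Complex.exp (θ * Complex.I) * w) := by
    intro w hw
    have hg : DiffContOnCl ℂ (fun ζ : ℂ => F (ζ * w)) (ball 0 1) := by
      apply DifferentiableOn.diffContOnCl
      rw [closure_ball (0 : ℂ) one_ne_zero]
      intro ζ hζ
      rw [mem_closedBall_zero_iff] at hζ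
      have h1 : ‖ζ * w‖ ^ 2 ≤ s := by
        rw [norm_mul, mul_pow]
        have h2 : ‖ζ‖ ^ 2 ≤ 1 := pow_le_one₀ (norm_nonneg _) hζ
        have h3 := hw.2
        nlinarith [sq_nonneg ‖w‖, sq_nonneg ‖ζ‖]
      exact ((hF _ h1).comp ζ (by fun_prop)).differentiableWithinAt
    have h1 := Pool.Agent.Helper853.Bk.circle_ineq hg
    simp only [zero_mul] at h1
    refine h1.trans (le_of_eq ?_)
    apply lintegral_congr
    intro θ
    rw [hH, Set.indicator_of_mem ((hrotmem θ w).mpr hw)]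
  have hint : ∫⁻ _w in ann s, ENNReal.ofReal (2 * Real.pi) * ENNReal.ofReal (‖F 0‖ ^ 2) ≤
      ∫⁻ w in ann s, ∫⁻ θ in Set.Ioc (0 : ℝ) (2 * Real.pi),
        H (Complex.exp (θ * Complex.I) * w) :=
    setLIntegral_mono' (measurableSet_ann s) hpt
  rw [lintegral_const, Measure.restrict_apply MeasurableSet.univ, Set.univ_inter,
    lintegral_lintegral_swap] at hint
  swap
  · apply Measurable.aemeasurable
    apply hHm.comp
    apply Continuous.measurable
    fun_prop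
  have hrot : ∀ θ : ℝ, ∫⁻ w in ann s, H (Complex.exp (θ * Complex.I) * w) =
      ∫⁻ w in ann s, ENNReal.ofReal (‖F w‖ ^ 2) := by
    intro θ
    have e1 : ∫⁻ w in ann s, H (Complex.exp (θ * Complex.I) * w) =
        ∫⁻ w, H (Complex.exp (θ * Complex.I) * w) := by
      rw [← lintegral_indicator (measurableSet_ann s)]
      apply lintegral_congr
      intro w
      by_cases hw : w ∈ ann s
      · rw [Set.indicator_of_mem hw]
      · rw [Set.indicator_of_notMem hw, hH, Set.indicator_of_notMem]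
        exact fun hc => hw ((hrotmem θ w).mp hc)
    have h1 : MeasurePreserving (fun z : ℂ => Complex.exp (θ * Complex.I) * z) volume volume := by
      have := (rotation (Circle.exp θ)).measurePreserving
      exact this
    rw [e1, h1.lintegral_comp hHm, hH, lintegral_indicator (measurableSet_ann s)]
  simp_rw [hrot] at hint
  rw [lintegral_const, Measure.restrict_apply MeasurableSet.univ, Set.univ_inter,
    Real.volume_Ioc, sub_zero] at hint
  have hne : ENNReal.ofReal (2 * Real.pi) ≠ 0 := by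
    rw [Ne, ENNReal.ofReal_eq_zero]
    push Not
    exact hpi
  have e3 : ENNReal.ofReal (2 * Real.pi) * ENNReal.ofReal (‖F 0‖ ^ 2) * volume (ann s) =
      (ENNReal.ofReal (‖F 0‖ ^ 2) * volume (ann s)) * ENNReal.ofReal (2 * Real.pi) := by
    ring
  rw [e3] at hint
  exact (ENNReal.mul_le_mul_iff_left hne ENNReal.ofReal_ne_top).mp hint

/-- sublevel set of a quadratic in one real variable -/
lemma quad1 {A B C K : ℝ} (hA : 0 < A) (hK : 0 ≤ K) :
    volume {a : ℝ | |A * a ^ 2 + B * a + C| ≤ K} ≤ ENNReal.ofReal (2 * Real.sqrt (2 * K / A)) := by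
  set t₀ := -B / (2 * A) with ht₀
  set m := t₀ ^ 2 - C / A with hm
  set k := K / A with hk
  have hk0 : 0 ≤ k := by positivity
  set lo := Real.sqrt (m - k) with hlo
  set w := Real.sqrt (2 * K / A) with hw
  have hw0 : 0 ≤ w := Real.sqrt_nonneg _
  have hlo0 : 0 ≤ lo := Real.sqrt_nonneg _
  have hw2 : w ^ 2 = 2 * k := by
    rw [hw, Real.sq_sqrt (by positivity), hk]; ring
  have hlo2 : m - k ≤ lo ^ 2 := by
    by_cases h : 0 ≤ m - k
    · rw [hlo, Real.sq_sqrt h]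
    · nlinarith [sq_nonneg lo]
  have hsub : {a : ℝ | |A * a ^ 2 + B * a + C| ≤ K} ⊆
      Icc (t₀ + lo) (t₀ + lo + w) ∪ Icc (t₀ - lo - w) (t₀ - lo) := by
    intro a ha
    simp only [mem_setOf_eq] at ha
    have e : A * a ^ 2 + B * a + C = A * ((a - t₀) ^ 2 - m) := by
      rw [hm, ht₀]; field_simp; ring
    rw [e, abs_mul, abs_of_pos hA] at ha
    have ha2 : |(a - t₀) ^ 2 - m| ≤ k := by
      rw [hk, le_div_iff₀ hA]; linarith
    obtain ⟨h1, h2⟩ := abs_le.mp ha2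
    have h3 : lo ≤ |a - t₀| := by
      rw [hlo]
      apply Real.sqrt_le_iff.mpr ⟨abs_nonneg _, ?_⟩
      rw [sq_abs]; linarith
    have h4 : |a - t₀| ≤ lo + w := by
      apply abs_le_of_sq_le_sq' _ (by positivity) |> abs_le.mpr
      nlinarith [mul_nonneg hlo0 hw0]
    rcases le_total 0 (a - t₀) with h | h
    · rw [abs_of_nonneg h] at h3 h4
      left; constructor <;> linarith
    · rw [abs_of_nonpos h] at h3 h4
      right; constructor <;> linarith
  refine (measure_mono hsub).trans ((measure_union_le _ _).trans ?_)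
  rw [Real.volume_Icc, Real.volume_Icc, ← ENNReal.ofReal_add (by linarith) (by linarith)]
  apply ENNReal.ofReal_le_ofReal
  linarith

/-- sublevel set of a quadratic in a disc -/
lemma quad2 {A B C m₁ m₂ c₀ K s : ℝ} (hA : 0 < A) (hK : 0 ≤ K) :
    volume {ζ : ℂ | ‖ζ‖ ^ 2 ≤ s ∧ |A * ζ.re ^ 2 + B * (ζ.re * ζ.im) + C * ζ.im ^ 2 + m₁ * ζ.re +
      m₂ * ζ.im + c₀| ≤ K} ≤
      ENNReal.ofReal (2 * Real.sqrt (2 * K / A)) * ENNReal.ofReal (2 * Real.sqrt s) := by
  set T : Set (ℝ × ℝ) := {z | z.2 ∈ Icc (-Real.sqrt s) (Real.sqrt s) ∧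
    |A * z.1 ^ 2 + (B * z.2 + m₁) * z.1 + (C * z.2 ^ 2 + m₂ * z.2 + c₀)| ≤ K} with hT
  have hTm : MeasurableSet T := by
    have h1 : IsClosed {z : ℝ × ℝ | z.2 ∈ Icc (-Real.sqrt s) (Real.sqrt s)} :=
      isClosed_Icc.preimage continuous_snd
    have h2 : IsClosed {z : ℝ × ℝ |
        |A * z.1 ^ 2 + (B * z.2 + m₁) * z.1 + (C * z.2 ^ 2 + m₂ * z.2 + c₀)| ≤ K} :=
      isClosed_le (by fun_prop) continuous_const
    exact (h1.inter h2).measurableSet
  have hsub : {ζ : ℂ | ‖ζ‖ ^ 2 ≤ s ∧ |A * ζ.re ^ 2 + B * (ζ.re * ζ.im) + C * ζ.im ^ 2 +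
      m₁ * ζ.re + m₂ * ζ.im + c₀| ≤ K} ⊆ Complex.measurableEquivRealProd ⁻¹' T := by
    intro ζ hζ
    obtain ⟨h1, h2⟩ := hζ
    refine ⟨?_, ?_⟩
    · have h3 : |ζ.im| ≤ Real.sqrt s :=
        (Complex.abs_im_le_norm ζ).trans (Real.le_sqrt_of_sq_le h1)
      exact abs_le.mp h3
    · show |A * ζ.re ^ 2 + (B * ζ.im + m₁) * ζ.re + (C * ζ.im ^ 2 + m₂ * ζ.im + c₀)| ≤ K
      convert h2 using 2
      ring
  refine (measure_mono hsub).trans ?_
  rw [Complex.volume_preserving_equiv_real_prod.measure_preimage hTm.nullMeasurableSet,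
    Measure.volume_eq_prod, Measure.prod_apply_symm hTm]
  have hb : ∀ b : ℝ, volume ((fun a : ℝ => (a, b)) ⁻¹' T) ≤
      (Icc (-Real.sqrt s) (Real.sqrt s)).indicator
        (fun _ => ENNReal.ofReal (2 * Real.sqrt (2 * K / A))) b := by
    intro b
    by_cases hb : b ∈ Icc (-Real.sqrt s) (Real.sqrt s)
    · rw [indicator_of_mem hb]
      refine le_trans (measure_mono ?_) (quad1 (B := B * b + m₁) (C := C * b ^ 2 + m₂ * b + c₀)
        hA hK)
      intro a ha
      exact ha.2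
    · rw [indicator_of_notMem hb]
      have : (fun a : ℝ => (a, b)) ⁻¹' T = ∅ := by
        ext a
        simp only [mem_preimage, mem_empty_iff_false, iff_false]
        exact fun h => hb h.1
      rw [this, measure_empty]
  refine (lintegral_mono hb).trans ?_
  rw [lintegral_indicator measurableSet_Icc, lintegral_const,
    Measure.restrict_apply MeasurableSet.univ, Set.univ_inter, Real.volume_Icc]
  apply le_of_eq
  congr 2
  ring

/-- change of variables inequality for maps close to the identity -/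
lemma cov (n : ℕ) : ∃ τ : ℝ, 0 < τ ∧ ∀ (S : Set (Fin n → ℂ)) (Φ : (Fin n → ℂ) → (Fin n → ℂ)),
    Measurable Φ → (∀ x ∈ S, ∀ y ∈ S, ‖Φ x - Φ y - (x - y)‖ ≤ τ * ‖x - y‖) →
    ∀ J : (Fin n → ℂ) → ℝ≥0∞, Measurable J → ∫⁻ q in S, J (Φ q) ≤ 2 * ∫⁻ x, J x := by
  have hm : ((1 / 2 : ℝ≥0) : ℝ≥0∞) <
      ENNReal.ofReal |(ContinuousLinearMap.id ℝ (Fin n → ℂ)).det| := by
    have : (ContinuousLinearMap.id ℝ (Fin n → ℂ)).det = 1 := by
      simp [ContinuousLinearMap.det]
    rw [this, abs_one, ENNReal.ofReal_one]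
    exact_mod_cast (by norm_num : (1 / 2 : ℝ≥0) < 1)
  have h := mul_le_addHaar_image_of_lt_det (volume : Measure (Fin n → ℂ)) _ hm
  obtain ⟨τ, hτ, hτ0⟩ := (h.and self_mem_nhdsWithin).exists
  refine ⟨τ, by exact_mod_cast hτ0, ?_⟩
  intro S Φ hΦ hap J hJ
  have hle : Measure.map Φ (volume.restrict S) ≤ (2 : ℝ≥0∞) • (volume : Measure (Fin n → ℂ)) := by
    rw [Measure.le_iff]
    intro A hA
    rw [Measure.map_apply hΦ hA, Measure.restrict_apply (hΦ hA), Measure.smul_apply, smul_eq_mul]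
    have h1 : ApproximatesLinearOn Φ (ContinuousLinearMap.id ℝ (Fin n → ℂ)) (Φ ⁻¹' A ∩ S) τ := by
      intro x hx y hy
      exact hap x hx.2 y hy.2
    have h2 := hτ _ _ h1
    have h3 : volume (Φ '' (Φ ⁻¹' A ∩ S)) ≤ volume A := by
      apply measure_mono
      rintro _ ⟨x, hx, rfl⟩
      exact hx.1
    have h4 := mul_le_mul_right (h2.trans h3) (2 : ℝ≥0∞)
    rw [← mul_assoc] at h4
    have h5 : (2 : ℝ≥0∞) * ((1 / 2 : ℝ≥0) : ℝ≥0∞) = 1 := by
      have : (2 : ℝ≥0∞) = ((2 : ℝ≥0) : ℝ≥0∞) := rfl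
      rw [this, ← ENNReal.coe_mul]
      norm_num
    rwa [h5, one_mul] at h4
  rw [← lintegral_map hJ hΦ]
  refine (lintegral_mono' hle le_rfl).trans ?_
  rw [lintegral_smul_measure, smul_eq_mul]

/-- Fubini core of the key estimate -/
lemma core {n : ℕ} {Ω S : Set (Fin n → ℂ)} (hS : MeasurableSet S) (hΩ : MeasurableSet Ω)
    {u w : (Fin n → ℂ) → ℝ≥0∞} (hu : Measurable u) (hw : Measurable w)
    {Φ : ℂ → (Fin n → ℂ) → (Fin n → ℂ)} (hΦ : Measurable fun z : (Fin n → ℂ) × ℂ => Φ z.2 z.1)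
    {T : Set ((Fin n → ℂ) × ℂ)} (hT : MeasurableSet T) {Z : Set ℂ} (hZ : MeasurableSet Z)
    {κ : ℝ≥0∞}
    (h1 : ∀ q ∈ S, u q ≤ ∫⁻ ζ in Z, T.indicator (fun z => u z.1 * w z.1) (Φ ζ q, ζ))
    (h2 : ∀ ζ ∈ Z, ∀ J : (Fin n → ℂ) → ℝ≥0∞, Measurable J →
      ∫⁻ q in S, J (Φ ζ q) ≤ 2 * ∫⁻ x, J x)
    (h3 : ∀ x, w x * volume {ζ | (x, ζ) ∈ T} ≤ κ) (h4 : ∀ z ∈ T, z.1 ∈ Ω) :
    ∫⁻ q in S, u q ≤ 2 * κ * ∫⁻ x in Ω, u x := by
  set J : (Fin n → ℂ) × ℂ → ℝ≥0∞ := T.indicator (fun z => u z.1 * w z.1) with hJ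
  have hJm : Measurable J :=
    ((hu.comp measurable_fst).mul (hw.comp measurable_fst)).indicator hT
  calc ∫⁻ q in S, u q ≤ ∫⁻ q in S, ∫⁻ ζ in Z, J (Φ ζ q, ζ) := setLIntegral_mono' hS h1
    _ = ∫⁻ ζ in Z, ∫⁻ q in S, J (Φ ζ q, ζ) := by
        apply lintegral_lintegral_swap
        exact (hJm.comp (hΦ.prodMk measurable_snd)).aemeasurable
    _ ≤ ∫⁻ ζ in Z, 2 * ∫⁻ x, J (x, ζ) := by
        apply setLIntegral_mono' hZ
        intro ζ hζ
        exact h2 ζ hζ (fun x => J (x, ζ)) (hJm.comp measurable_prodMk_right)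
    _ ≤ ∫⁻ ζ, 2 * ∫⁻ x, J (x, ζ) := setLIntegral_le_lintegral _ _
    _ = 2 * ∫⁻ x, ∫⁻ ζ, J (x, ζ) := by
        rw [lintegral_const_mul' _ _ (by norm_num)]
        congr 1
        symm
        apply lintegral_lintegral_swap
        exact hJm.aemeasurable
    _ ≤ 2 * ∫⁻ x, Ω.indicator (fun x => κ * u x) x := by
        apply mul_le_mul_right
        apply lintegral_mono
        intro x
        have e : (fun ζ => J (x, ζ)) = {ζ | (x, ζ) ∈ T}.indicator (fun _ => u x * w x) := by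
          funext ζ
          by_cases h : (x, ζ) ∈ T
          · rw [hJ, indicator_of_mem h, indicator_of_mem (show ζ ∈ {ζ | (x, ζ) ∈ T} from h)]
          · rw [hJ, indicator_of_notMem h,
              indicator_of_notMem (show ζ ∉ {ζ | (x, ζ) ∈ T} from h)]
        have hm : MeasurableSet {ζ | (x, ζ) ∈ T} := measurable_prodMk_left hT
        simp only
        rw [e, lintegral_indicator hm, lintegral_const, Measure.restrict_apply MeasurableSet.univ,
          Set.univ_inter]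
        by_cases hx : x ∈ Ω
        · rw [indicator_of_mem hx, mul_assoc, mul_comm κ]
          exact mul_le_mul_right (h3 x) _
        · have : {ζ | (x, ζ) ∈ T} = ∅ := by
            ext ζ
            simp only [mem_setOf_eq, mem_empty_iff_false, iff_false]
            exact fun h => hx (h4 _ h)
          rw [this, measure_empty, mul_zero]
          exact zero_le
    _ = 2 * κ * ∫⁻ x in Ω, u x := by
        rw [lintegral_indicator hΩ, lintegral_const_mul _ hu, mul_assoc]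

end Pool.Agent.H809Z.Berg
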