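import Pool.Agent.H809Z.Berg.Geo
import Pool.Agent.H809Z.Berg.Meas

open scoped Topology ENNReal NNReal
open MeasureTheory Filter Metric Set Asymptotics

namespace Pool.Agent.H809Z.Berg

variable {n : ℕ} {r ρ : (Fin n → ℂ) → ℝ} {p N v : Fin n → ℂ}

/-- the depth in the small domain is controlled by the depth in the large one -/
lemma Setup.depth (h : Setup r ρ p N v) {Ω B U : Set (Fin n → ℂ)} (hBΩ : B ⊆ Ω) (hU : U ∈ 𝓝 p)
    (hr0 : r p = 0) (hΩU : ∀ y ∈ U, y ∈ Ω ↔ r y < 0) (hBU : ∀ y ∈ U, y ∈ B ↔ ρ y < 0) :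
    ∀ᶠ q in 𝓝 p, q ∈ B → -ρ q ≤ 3 * (-r q) := by
  set c : ℝ := 1 / (2 * (‖N‖ + 1)) with hc
  have hc0 : 0 < c := by positivity
  have hcN : c * ‖N‖ ≤ 1 / 2 := by
    rw [hc, div_mul_eq_mul_div, div_le_div_iff₀ (by positivity) (by norm_num)]
    linarith
  have hrc : Tendsto r (𝓝 p) (𝓝 0) := by
    have := h.hr.continuousAt.tendsto
    rwa [hr0] at this
  have ht : Tendsto (fun q => q + (-2 * r q) • N) (𝓝 p) (𝓝 p) := by
    have h1 := ((hrc.const_mul (-2)).smul_const N)
    have h2 := (tendsto_id (x := 𝓝 p)).add h1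
    simpa using h2
  have ht2 := ht.prodMk_nhds (tendsto_id (x := 𝓝 p))
  have a1 := ht2.eventually ((h.hr.hasStrictFDerivAt (by norm_num)).isLittleO.def hc0)
  have a2 := ht2.eventually ((h.hρ.hasStrictFDerivAt (by norm_num)).isLittleO.def hc0)
  filter_upwards [a1, a2, hU, ht.eventually hU] with q b1 b2 hqU hqU' hqB
  have hq : r q < 0 := (hΩU q hqU).mp (hBΩ hqB)
  simp only [id, add_sub_cancel_left, map_smul, h.hd, h.hN, smul_eq_mul, mul_one, norm_smul,
    Real.norm_eq_abs] at b1 b2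
  have e : |-2 * r q| = -2 * r q := abs_of_pos (by linarith)
  rw [e] at b1 b2
  have b3 : c * (-2 * r q * ‖N‖) ≤ -r q := by nlinarith
  have c1 := (abs_le.mp (b1.trans b3)).1
  have c2 := (abs_le.mp (b2.trans b3)).2
  have d1 : q + (-2 * r q) • N ∉ B := by
    intro hc
    have := (hΩU _ hqU').mp (hBΩ hc)
    linarith
  have d2 : ¬ ρ (q + (-2 * r q) • N) < 0 := fun hc => d1 ((hBU _ hqU').mpr hc)
  linarith [not_lt.mp d2]

lemma measurable_cx (r : (Fin n → ℂ) → ℝ) (u : Fin n → ℂ) :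
    Measurable fun q => cx (fderiv ℝ r q) u := by
  unfold cx
  have h : ∀ w : Fin n → ℂ, Measurable fun q => ((fderiv ℝ r q w : ℝ) : ℂ) := fun w =>
    Complex.measurable_ofReal.comp (measurable_fderiv_apply_const ℝ r w)
  exact (h u).sub ((h _).const_mul _)

lemma measurable_beta (r : (Fin n → ℂ) → ℝ) (N v : Fin n → ℂ) : Measurable (beta r N v) :=
  (measurable_cx r v).neg.div (measurable_cx r N)

lemma measurable_Phi (r : (Fin n → ℂ) → ℝ) (N v : Fin n → ℂ) (α : ℂ) :
    Measurable fun z : (Fin n → ℂ) × ℂ => z.1 + hh r N v α z.2 z.1 := by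
  unfold hh
  have h1 : Measurable fun z : (Fin n → ℂ) × ℂ => beta r N v z.1 :=
    (measurable_beta r N v).comp measurable_fst
  refine measurable_fst.add ((measurable_snd.smul_const v).add (Measurable.smul_const ?_ N))
  exact (measurable_snd.mul h1).add ((measurable_snd.pow_const 2).const_mul α)

lemma weight_bound {A M D : ℝ} (hA : 0 < A) (hM : 0 < M) (hD : 0 < D) :
    3 / (2 * M ^ 2 * D) * (2 * Real.sqrt (2 * (7 * D) / A) * (2 * Real.sqrt (2 * M ^ 2 * D))) =
      6 * Real.sqrt (28 / A) / M := by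
  have e : Real.sqrt (2 * (7 * D) / A) * Real.sqrt (2 * M ^ 2 * D) =
      Real.sqrt (28 / A) * (M * D) := by
    rw [← Real.sqrt_mul (by positivity)]
    have : 2 * (7 * D) / A * (2 * M ^ 2 * D) = 28 / A * (M * D) ^ 2 := by
      field_simp; ring
    rw [this, Real.sqrt_mul (by positivity), Real.sqrt_sq (by positivity)]
  calc _ = 3 / (2 * M ^ 2 * D) * 4 *
        (Real.sqrt (2 * (7 * D) / A) * Real.sqrt (2 * M ^ 2 * D)) := by ring
    _ = 6 * Real.sqrt (28 / A) / M := by
        rw [e]; field_simp; ring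

/-- the key estimate -/
theorem Setup.key (h : Setup r ρ p N v) {Ω B U : Set (Fin n → ℂ)} (hΩ : IsOpen Ω) (hB : IsOpen B)
    (hBΩ : B ⊆ Ω) (hU : U ∈ 𝓝 p) (hr0 : r p = 0) (hrm : Measurable r) (hρm : Measurable ρ)
    (hΩU : ∀ y ∈ U, y ∈ Ω ↔ r y < 0) (hBU : ∀ y ∈ U, y ∈ B ↔ ρ y < 0)
    (hL : levi r p v ≤ 0) (hG : 0 < fderiv ℝ (fderiv ℝ (ρ - r)) p v v) {κ : ℝ} (hκ : 0 < κ) :
    ∃ η > 0, ∀ f : (Fin n → ℂ) → ℂ, Measurable f → DifferentiableOn ℂ f Ω →
      ∫⁻ q in B ∩ ball p η, ENNReal.ofReal (‖f q‖ ^ 2) ≤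
        ENNReal.ofReal κ * ∫⁻ x in Ω, ENNReal.ofReal (‖f x‖ ^ 2) := by
  set lam := -levi r p v with hlam
  have hlam0 : 0 ≤ lam := by linarith
  set g := ρ - r with hg
  set G := fderiv ℝ (fderiv ℝ g) p with hGdef
  set α := alpha r p v with hα
  set A := lam + 1 / 2 * G v v with hA
  have hA0 : 0 < A := by linarith
  set Bq := 1 / 2 * (G v (Complex.I • v) + G (Complex.I • v) v) with hBq
  set Cq := lam + 1 / 2 * G (Complex.I • v) (Complex.I • v) with hCq
  set M := 12 * Real.sqrt (28 / A) / κ + 1 with hM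
  have hM0 : 0 < M := by positivity
  have hMκ : 2 * (6 * Real.sqrt (28 / A) / M) ≤ κ := by
    have h1 : 12 * Real.sqrt (28 / A) ≤ κ * M := by
      rw [hM, mul_add, mul_div_cancel₀ _ hκ.ne']
      linarith
    rw [← mul_div_assoc, div_le_iff₀ hM0]
    linarith
  set ε := 1 / (4 * M ^ 2) with hε
  have hε0 : 0 < ε := by positivity
  have hεM : ε * M ^ 2 = 1 / 4 := by rw [hε]; field_simp
  obtain ⟨τ, hτ, hcov⟩ := cov n
  obtain ⟨K, t, ht, hK⟩ := h.contDiffAt_beta.exists_lipschitzOnWith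
  have ev1 := (h.G1.def hε0).and (((h.G2 α).def hε0).and ((h.tendsto_Phi α).eventually hU))
  obtain ⟨η₁, hη₁, hev1⟩ := Metric.eventually_nhds_iff.mp ev1
  set η' := min η₁ (τ / (K * ‖N‖ + 1)) with hη'
  have hη'0 : 0 < η' := lt_min hη₁ (by positivity)
  have hrc : Tendsto (fun q => M ^ 2 * (-r q)) (𝓝 p) (𝓝 0) := by
    have := h.hr.continuousAt.tendsto
    rw [hr0] at this
    simpa using this.neg.const_mul (M ^ 2)
  have ev2 := (h.depth hBΩ hU hr0 hΩU hBU).and ((hrc.eventually (gt_mem_nhds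
    (show 0 < η' ^ 2 by positivity))).and (Filter.Eventually.and hU ht))
  obtain ⟨η₂, hη₂, hev2⟩ := Metric.eventually_nhds_iff.mp ev2
  refine ⟨min η₁ η₂, lt_min hη₁ hη₂, ?_⟩
  intro f hfm hf
  set D : (Fin n → ℂ) → ℝ := fun x => -r x / (1 + lam * M ^ 2) with hD
  have hDm : Measurable D := hrm.neg.div_const _
  set m₁ : (Fin n → ℂ) → ℝ := fun x =>
    -(fderiv ℝ g x v + (beta r N v x * cx (fderiv ℝ g x) N).re) with hm₁
  set m₂ : (Fin n → ℂ) → ℝ := fun x =>
    -(fderiv ℝ g x (Complex.I • v) - (beta r N v x * cx (fderiv ℝ g x) N).im) with hm₂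
  have hm₁m : Measurable m₁ := ((measurable_fderiv_apply_const ℝ g v).add
    (Complex.measurable_re.comp ((measurable_beta r N v).mul (measurable_cx g N)))).neg
  have hm₂m : Measurable m₂ := ((measurable_fderiv_apply_const ℝ g _).sub
    (Complex.measurable_im.comp ((measurable_beta r N v).mul (measurable_cx g N)))).neg
  set P : (Fin n → ℂ) × ℂ → ℝ := fun z => A * z.2.re ^ 2 + Bq * (z.2.re * z.2.im) +
    Cq * z.2.im ^ 2 + m₁ z.1 * z.2.re + m₂ z.1 * z.2.im + ρ z.1 with hP
  have hPm : Measurable P := by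
    have hre : Measurable fun z : (Fin n → ℂ) × ℂ => z.2.re :=
      Complex.measurable_re.comp measurable_snd
    have him : Measurable fun z : (Fin n → ℂ) × ℂ => z.2.im :=
      Complex.measurable_im.comp measurable_snd
    exact (((((hre.pow_const 2).const_mul A).add ((hre.mul him).const_mul Bq)).add
      ((him.pow_const 2).const_mul Cq)).add ((hm₁m.comp measurable_fst).mul hre)).add
      ((hm₂m.comp measurable_fst).mul him) |>.add (hρm.comp measurable_fst)
  set T : Set ((Fin n → ℂ) × ℂ) := {z | z.1 ∈ Ω ∧ 0 < D z.1 ∧ ‖z.2‖ ^ 2 ≤ 2 * M ^ 2 * D z.1 ∧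
    |P z| ≤ 7 * D z.1} with hT
  have hTm : MeasurableSet T := by
    have hD1 : Measurable fun z : (Fin n → ℂ) × ℂ => D z.1 := hDm.comp measurable_fst
    refine (measurable_fst hΩ.measurableSet).inter
      ((measurableSet_lt measurable_const hD1).inter ((measurableSet_le
        (measurable_snd.norm.pow_const 2) (hD1.const_mul _)).inter
        (measurableSet_le hPm.abs (hD1.const_mul _))))
  set u : (Fin n → ℂ) → ℝ≥0∞ := fun x => ENNReal.ofReal (‖f x‖ ^ 2) with hu
  have hum : Measurable u := ENNReal.measurable_ofReal.comp (hfm.norm.pow_const 2)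
  set w : (Fin n → ℂ) → ℝ≥0∞ := fun x => ENNReal.ofReal (3 / (2 * M ^ 2 * D x)) with hw
  have hwm : Measurable w :=
    ENNReal.measurable_ofReal.comp (measurable_const.div (hDm.const_mul _))
  have hmain := core (S := B ∩ ball p (min η₁ η₂)) (hB.measurableSet.inter measurableSet_ball)
    hΩ.measurableSet hum hwm (Φ := fun ζ q => q + hh r N v α ζ q) (measurable_Phi r N v α) hTm
    (Z := ball 0 η') measurableSet_ball (κ := ENNReal.ofReal (6 * Real.sqrt (28 / A) / M))
    ?_ ?_ ?_ (fun z hz => hz.1)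
  · refine hmain.trans (mul_le_mul_left ?_ _)
    rw [← ENNReal.ofReal_ofNat 2, ← ENNReal.ofReal_mul (by norm_num)]
    exact ENNReal.ofReal_le_ofReal hMκ
  · -- sub-mean value on the discs
    rintro q ⟨hqB, hq⟩
    rw [mem_ball, lt_min_iff] at hq
    obtain ⟨hdep, hsm, hqU, -⟩ := hev2 hq.2
    have hdep := hdep hqB
    have hrq : r q < 0 := (hΩU q hqU).mp (hBΩ hqB)
    have hρq : ρ q < 0 := (hBU q hqU).mp hqB
    set s := M ^ 2 * (-r q) with hs
    have hs0 : 0 < s := mul_pos (by positivity) (by linarith)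
    have hsmall : ∀ ζ : ℂ, ‖ζ‖ ^ 2 ≤ s → ‖ζ‖ < η' := fun ζ hζ =>
      lt_of_pow_lt_pow_left₀ 2 hη'0.le (hζ.trans_lt hsm)
    have hfacts : ∀ ζ : ℂ, ‖ζ‖ ^ 2 ≤ s →
        |r (q + hh r N v α ζ q) - r q + lam * ‖ζ‖ ^ 2| ≤ -r q / 4 ∧
        |ρ q - P (q + hh r N v α ζ q, ζ)| ≤ -r q / 2 ∧ q + hh r N v α ζ q ∈ U := by
      intro ζ hζ
      have hd : dist (q, ζ) (p, 0) < η₁ := by
        rw [Prod.dist_eq, max_lt_iff]
        refine ⟨hq.1, ?_⟩
        simp only [dist_zero_right]
        exact (hsmall ζ hζ).trans_le (min_le_left _ _)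
      obtain ⟨g1, g2, g3⟩ := hev1 hd
      simp only [Real.norm_eq_abs, abs_pow, abs_norm] at g1 g2 g3
      have hεs : ε * ‖ζ‖ ^ 2 ≤ -r q / 4 := by
        calc ε * ‖ζ‖ ^ 2 ≤ ε * s := by gcongr
          _ = (ε * M ^ 2) * (-r q) := by rw [hs]; ring
          _ = -r q / 4 := by rw [hεM]; ring
      have g1' := g1.trans hεs
      have g2' := g2.trans hεs
      refine ⟨?_, ?_, g3⟩
      · have e : r (q + hh r N v α ζ q) - r q + lam * ‖ζ‖ ^ 2 =
            r (q + hh r N v α ζ q) - r q - levi r p v * ‖ζ‖ ^ 2 := by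
          rw [hlam]; ring
        rw [e]
        exact g1'
      · set x := q + hh r N v α ζ q with hx
        have e1 : fderiv ℝ g x (ζ • v + (ζ * beta r N v x) • N) =
            -(m₁ x * ζ.re + m₂ x * ζ.im) := by
          rw [map_add, cx_re (fderiv ℝ g x) (ζ * beta r N v x), smul_decomp ζ v, map_add, map_smul,
            map_smul, mul_assoc, Complex.mul_re ζ]
          simp only [hm₁, hm₂, smul_eq_mul]
          ring
        have e2 := bilin_expand G ζ v
        have e3 : ‖ζ‖ ^ 2 = ζ.re ^ 2 + ζ.im ^ 2 := by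
          rw [Complex.sq_norm, Complex.normSq_apply]; ring
        have e4 : ρ q - P (x, ζ) = (g q - g x + fderiv ℝ g x (ζ • v + (ζ * beta r N v x) • N) -
            1 / 2 * G (ζ • v) (ζ • v)) - (r x - r q - levi r p v * ‖ζ‖ ^ 2) := by
          rw [e1, e2, e3]
          simp only [hP, hg, Pi.sub_apply, hA, hBq, hCq, hlam]
          ring
        rw [e4]
        refine (abs_sub _ _).trans ?_
        linarith
    have hin : ∀ ζ : ℂ, ‖ζ‖ ^ 2 ≤ s → q + hh r N v α ζ q ∈ Ω := by
      intro ζ hζ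
      obtain ⟨g1, -, g3⟩ := hfacts ζ hζ
      apply (hΩU _ g3).mpr
      have := (abs_le.mp g1).2
      nlinarith [mul_nonneg hlam0 (sq_nonneg ‖ζ‖)]
    have hFm : Measurable fun ζ : ℂ => f (q + hh r N v α ζ q) :=
      hfm.comp ((measurable_Phi r N v α).comp measurable_prodMk_left)
    have hsub := submean_ann hFm hs0.le (fun ζ hζ => by
      have h1 : DifferentiableAt ℂ f (q + hh r N v α ζ q) :=
        hf.differentiableAt (hΩ.mem_nhds (hin ζ hζ))
      have h2 : DifferentiableAt ℂ (fun ζ : ℂ => q + hh r N v α ζ q) ζ := by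
        unfold hh
        fun_prop
      exact h1.comp ζ h2)
    have e0 : q + hh r N v α 0 q = q := by simp [hh]
    simp only [e0] at hsub
    have hannZ : ann s ⊆ ball 0 η' := fun ζ hζ => mem_ball_zero_iff.mpr (hsmall ζ hζ.2)
    have hden : 0 < 1 + lam * M ^ 2 := by positivity
    calc u q = u q * ENNReal.ofReal s * ENNReal.ofReal (1 / s) := by
          rw [mul_assoc, ← ENNReal.ofReal_mul hs0.le, mul_one_div_cancel hs0.ne',
            ENNReal.ofReal_one, mul_one]
      _ ≤ (∫⁻ ζ in ann s, u (q + hh r N v α ζ q)) * ENNReal.ofReal (1 / s) :=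
          mul_le_mul_left hsub _
      _ = ∫⁻ ζ in ann s, u (q + hh r N v α ζ q) * ENNReal.ofReal (1 / s) := by
          rw [lintegral_mul_const' _ _ ENNReal.ofReal_ne_top]
      _ ≤ ∫⁻ ζ in ann s, T.indicator (fun z => u z.1 * w z.1) (q + hh r N v α ζ q, ζ) := by
          apply setLIntegral_mono' (measurableSet_ann s)
          intro ζ hζ
          obtain ⟨g1, g2, -⟩ := hfacts ζ hζ.2
          set x := q + hh r N v α ζ q with hx
          obtain ⟨g1a, g1b⟩ := abs_le.mp g1
          have k1 := mul_le_mul_of_nonneg_left hζ.1 hlam0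
          have k2 := mul_le_mul_of_nonneg_left hζ.2 hlam0
          have k3 : 0 ≤ lam * M ^ 2 * (-r q) := mul_nonneg (by positivity) (by linarith)
          have hD1 : -r q ≤ 2 * D x := by
            simp only [hD]
            rw [← mul_div_assoc, le_div_iff₀ hden]
            rw [hs] at k1
            nlinarith
          have hD2 : D x ≤ 3 / 2 * (-r q) := by
            simp only [hD]
            rw [div_le_iff₀ hden]
            rw [hs] at k2
            nlinarith
          have hD0 : 0 < D x := by linarith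
          have hmem : (x, ζ) ∈ T := by
            refine ⟨hin ζ hζ.2, hD0, ?_, ?_⟩
            · calc ‖ζ‖ ^ 2 ≤ M ^ 2 * (-r q) := hζ.2
                _ ≤ M ^ 2 * (2 * D x) := by gcongr
                _ = 2 * M ^ 2 * D x := by ring
            · obtain ⟨g2a, g2b⟩ := abs_le.mp g2
              rw [abs_le]
              constructor <;> simp only <;> linarith
          rw [indicator_of_mem hmem]
          apply mul_le_mul_right
          apply ENNReal.ofReal_le_ofReal
          rw [div_le_div_iff₀ hs0 (by positivity), hs]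
          nlinarith [sq_nonneg M]
      _ ≤ _ := lintegral_mono_set hannZ
  · -- change of variables
    intro ζ hζ J hJ
    rw [mem_ball_zero_iff] at hζ
    apply hcov _ (fun q => q + hh r N v α ζ q)
      ((measurable_Phi r N v α).comp measurable_prodMk_right) _ J hJ
    intro x hx y hy
    have hx' : x ∈ t := (hev2 ((mem_ball.mp hx.2).trans_le (min_le_right _ _))).2.2.2
    have hy' : y ∈ t := (hev2 ((mem_ball.mp hy.2).trans_le (min_le_right _ _))).2.2.2
    have e : x + hh r N v α ζ x - (y + hh r N v α ζ y) - (x - y) =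
        (ζ * (beta r N v x - beta r N v y)) • N := by
      unfold hh
      funext j
      simp only [Pi.add_apply, Pi.smul_apply, Pi.sub_apply, smul_eq_mul]
      ring
    have h1 : ‖beta r N v x - beta r N v y‖ ≤ K * ‖x - y‖ := by
      have := hK.dist_le_mul x hx' y hy'
      rwa [dist_eq_norm, dist_eq_norm] at this
    have h2 : ‖ζ‖ * (K * ‖N‖ + 1) ≤ τ := by
      have := hζ.le.trans (min_le_right _ _)
      rwa [le_div_iff₀ (by positivity)] at this
    rw [e, norm_smul, norm_mul]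
    calc ‖ζ‖ * ‖beta r N v x - beta r N v y‖ * ‖N‖ ≤ ‖ζ‖ * (K * ‖x - y‖) * ‖N‖ := by gcongr
      _ = ‖ζ‖ * (K * ‖N‖) * ‖x - y‖ := by ring
      _ ≤ τ * ‖x - y‖ := by
          apply mul_le_mul_of_nonneg_right _ (norm_nonneg _)
          nlinarith [norm_nonneg ζ]
  · -- the slices are thin
    intro x
    by_cases hD0 : 0 < D x
    · have h1 : volume {ζ | (x, ζ) ∈ T} ≤ ENNReal.ofReal (2 * Real.sqrt (2 * (7 * D x) / A)) *
          ENNReal.ofReal (2 * Real.sqrt (2 * M ^ 2 * D x)) := by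
        refine le_trans (measure_mono ?_) (quad2 (B := Bq) (C := Cq) (m₁ := m₁ x) (m₂ := m₂ x)
          (c₀ := ρ x) hA0 (by positivity))
        intro ζ hζ
        exact ⟨hζ.2.2.1, hζ.2.2.2⟩
      refine (mul_le_mul_right h1 _).trans (le_of_eq ?_)
      simp only [hw]
      rw [← ENNReal.ofReal_mul (by positivity), ← ENNReal.ofReal_mul (by positivity),
        weight_bound hA0 hM0 hD0]
    · have : {ζ | (x, ζ) ∈ T} = ∅ := by
        ext ζ
        simp only [mem_empty_iff_false, iff_false]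
        exact fun hc => hD0 hc.2.1
      rw [this, measure_empty, mul_zero]
      exact zero_le

end Pool.Agent.H809Z.Berg
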