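import Pool.Agent.Helper853.Bk.Bergman

open scoped Topology ENNReal NNReal
open MeasureTheory Filter Metric Set

namespace Pool.Agent.H809Z.Berg

variable {n : ℕ}

lemma local_bound {Ω : Set (Fin n → ℂ)} (hΩ : IsOpen Ω) {C : ℝ≥0∞} (hC : C ≠ ⊤)
    {z : Fin n → ℂ} (hz : z ∈ Ω) :
    ∃ r > 0, ∃ M : ℝ, ball z (2 * r) ⊆ Ω ∧ ∀ h : (Fin n → ℂ) → ℂ, DifferentiableOn ℂ h Ω →
      ∫⁻ x in Ω, ENNReal.ofReal (‖h x‖ ^ 2) ≤ C → ∀ w ∈ ball z (2 * r), ‖h w‖ ≤ M := by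
  obtain ⟨ε, hε, hsub⟩ := Metric.isOpen_iff.mp hΩ z hz
  set r := ε / 4 with hr
  have hr0 : 0 < r := by positivity
  set V := volume (closedBall (0 : Fin n → ℂ) r) with hV
  have hV0 : V ≠ 0 := (measure_closedBall_pos volume _ hr0).ne'
  have hV1 : V ≠ ⊤ := measure_closedBall_lt_top.ne
  refine ⟨r, hr0, Real.sqrt (C / V).toReal, (ball_subset_ball (by linarith)).trans hsub, ?_⟩
  intro h hh hint w hw
  have hs : closedBall w r ⊆ Ω := by
    intro y hy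
    apply hsub
    rw [mem_closedBall] at hy
    rw [mem_ball] at hw ⊢
    calc dist y z ≤ dist y w + dist w z := dist_triangle _ _ _
      _ < ε := by linarith
  have h1 := Pool.Agent.Helper853.Bk.bergman_ineq hh hs
  rw [Measure.addHaar_closedBall_center, ← hV] at h1
  have h2 := h1.trans ((lintegral_mono_set hs).trans hint)
  have h3 : ENNReal.ofReal (‖h w‖ ^ 2) ≤ C / V := by
    rw [ENNReal.le_div_iff_mul_le (Or.inl hV0) (Or.inl hV1)]
    exact h2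
  apply Real.le_sqrt_of_sq_le
  exact (ENNReal.ofReal_le_iff_le_toReal (ENNReal.div_ne_top hC hV0)).mp h3

lemma montel {Ω : Set (Fin n → ℂ)} (hΩ : IsOpen Ω) {C : ℝ≥0∞} (hC : C ≠ ⊤)
    (f : ℕ → (Fin n → ℂ) → ℂ) (hf : ∀ j, DifferentiableOn ℂ (f j) Ω)
    (hb : ∀ j, ∫⁻ x in Ω, ENNReal.ofReal (‖f j x‖ ^ 2) ≤ C) :
    ∃ (g : (Fin n → ℂ) → ℂ) (φ : ℕ → ℕ), StrictMono φ ∧ DifferentiableOn ℂ g Ω ∧
      ∀ x ∈ Ω, Tendsto (fun j => f (φ j) x) atTop (𝓝 (g x)) := by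
  obtain ⟨D, hDc, hDd⟩ := TopologicalSpace.exists_countable_dense (Fin n → ℂ)
  have hSc : (D ∩ Ω).Countable := hDc.mono inter_subset_left
  have : Countable ↥(D ∩ Ω) := hSc.to_subtype
  have hbd : ∀ s : ↥(D ∩ Ω), ∃ M : ℝ, ∀ j, ‖f j s‖ ≤ M := by
    intro s
    obtain ⟨r, hr, M, -, hM⟩ := local_bound hΩ hC s.2.2
    exact ⟨M, fun j => hM _ (hf j) (hb j) _ (mem_ball_self (by positivity))⟩
  choose M hM using hbd
  have hK : IsCompact (Set.pi univ fun s : ↥(D ∩ Ω) => closedBall (0 : ℂ) (M s)) :=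
    isCompact_univ_pi fun s => isCompact_closedBall _ _
  obtain ⟨a, -, φ, hφ, hlim⟩ := hK.tendsto_subseq (x := fun j (s : ↥(D ∩ Ω)) => f j s)
    (fun j s _ => mem_closedBall_zero_iff.mpr (hM s j))
  have hlim' : ∀ s : ↥(D ∩ Ω), Tendsto (fun j => f (φ j) s) atTop (𝓝 (a s)) := fun s =>
    tendsto_pi_nhds.mp hlim s
  have hcau : ∀ x ∈ Ω, ∃ l, Tendsto (fun j => f (φ j) x) atTop (𝓝 l) := by
    intro z hz
    apply cauchySeq_tendsto_of_complete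
    obtain ⟨r, hr, Mz, hsub, hMz⟩ := local_bound hΩ hC hz
    have hM0 : 0 ≤ Mz :=
      (norm_nonneg _).trans (hMz _ (hf 0) (hb 0) _ (mem_ball_self (by positivity)))
    set L := 2 * Mz / r with hL
    have hL0 : 0 ≤ L := by positivity
    rw [Metric.cauchySeq_iff]
    intro ε hε
    have hδ : 0 < min r (ε / (4 * (L + 1))) := lt_min hr (by positivity)
    obtain ⟨s, hs1, hs2⟩ := hDd.inter_open_nonempty _ isOpen_ball ⟨z, mem_ball_self hδ⟩
    have hsr : s ∈ ball z r := ball_subset_ball (min_le_left _ _) hs1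
    have hsΩ : s ∈ Ω := hsub (ball_subset_ball (by linarith) hsr)
    have hc := (hlim' ⟨s, hs2, hsΩ⟩).cauchySeq
    obtain ⟨N, hN⟩ := Metric.cauchySeq_iff.mp hc (ε / 2) (by positivity)
    refine ⟨N, fun j hj k hk => ?_⟩
    have hlip : ∀ i, ‖f i s - f i z‖ ≤ ε / 4 := by
      intro i
      have h1 := Pool.Agent.Helper853.Bk.lipschitz_bound hr ((hf i).mono hsub)
        (hMz _ (hf i) (hb i)) (mem_ball_self hr) hsr
      have h2 : ‖s - z‖ ≤ ε / (4 * (L + 1)) := by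
        rw [← dist_eq_norm]
        exact (mem_ball.mp hs1).le.trans (min_le_right _ _)
      calc ‖f i s - f i z‖ ≤ L * ‖s - z‖ := h1
        _ ≤ (L + 1) * (ε / (4 * (L + 1))) := by gcongr; linarith
        _ = ε / 4 := by field_simp
    have h3 := hN j hj k hk
    simp only [dist_eq_norm] at h3 ⊢
    calc ‖f (φ j) z - f (φ k) z‖ = ‖(f (φ j) s - f (φ k) s) - (f (φ j) s - f (φ j) z) +
          (f (φ k) s - f (φ k) z)‖ := by congr 1; ring
      _ ≤ ‖f (φ j) s - f (φ k) s‖ + ‖f (φ j) s - f (φ j) z‖ + ‖f (φ k) s - f (φ k) z‖ :=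
          (norm_add_le _ _).trans (by gcongr; exact norm_sub_le _ _)
      _ < ε := by linarith [hlip (φ j), hlip (φ k)]
  choose! g hg using hcau
  refine ⟨g, φ, hφ, ?_, hg⟩
  intro z hz
  obtain ⟨r, hr, Mz, hsub, hMz⟩ := local_bound hΩ hC hz
  apply DifferentiableAt.differentiableWithinAt
  apply Pool.Agent.Helper853.Bk.differentiableAt_of_tendsto (G := fun j => f (φ j))
    (r := 2 * r) (M := Mz) (by positivity)
  · filter_upwards with j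
    exact ⟨(hf _).mono hsub, hMz _ (hf _) (hb _)⟩
  · exact fun w hw => hg w (hsub hw)

lemma compact_bound {Ω K : Set (Fin n → ℂ)} (hΩ : IsOpen Ω) {C : ℝ≥0∞} (hC : C ≠ ⊤)
    (hK : IsCompact K) (hKΩ : K ⊆ Ω) :
    ∃ M : ℝ, ∀ h : (Fin n → ℂ) → ℂ, DifferentiableOn ℂ h Ω →
      ∫⁻ x in Ω, ENNReal.ofReal (‖h x‖ ^ 2) ≤ C → ∀ w ∈ K, ‖h w‖ ≤ M := by
  refine hK.induction_on (p := fun s => ∃ M : ℝ, ∀ h : (Fin n → ℂ) → ℂ, DifferentiableOn ℂ h Ω →
      ∫⁻ x in Ω, ENNReal.ofReal (‖h x‖ ^ 2) ≤ C → ∀ w ∈ s, ‖h w‖ ≤ M) ?_ ?_ ?_ ?_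
  · exact ⟨0, fun _ _ _ _ hw => absurd hw (notMem_empty _)⟩
  · rintro s t hst ⟨M, hM⟩
    exact ⟨M, fun h h1 h2 w hw => hM h h1 h2 w (hst hw)⟩
  · rintro s t ⟨M, hM⟩ ⟨M', hM'⟩
    refine ⟨max M M', fun h h1 h2 w hw => ?_⟩
    rcases hw with hw | hw
    · exact (hM h h1 h2 w hw).trans (le_max_left _ _)
    · exact (hM' h h1 h2 w hw).trans (le_max_right _ _)
  · intro z hz
    obtain ⟨r, hr, Mz, -, hMz⟩ := local_bound hΩ hC (hKΩ hz)
    exact ⟨ball z (2 * r), mem_nhdsWithin_of_mem_nhds (ball_mem_nhds z (by positivity)), Mz, hMz⟩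

lemma eLp_sq {μ : Measure (Fin n → ℂ)} (f : (Fin n → ℂ) → ℂ) :
    eLpNorm f 2 μ ^ 2 = ∫⁻ x, ENNReal.ofReal (‖f x‖ ^ 2) ∂μ := by
  rw [eLpNorm_eq_lintegral_rpow_enorm_toReal (by norm_num) (by norm_num)]
  simp only [ENNReal.toReal_ofNat]
  rw [← ENNReal.rpow_natCast, ← ENNReal.rpow_mul]
  norm_num

/-- abstract compactness criterion -/
lemma tendsto_of_key {Ω B : Set (Fin n → ℂ)} {p : Fin n → ℂ} (hΩ : IsOpen Ω)
    (hBb : Bornology.IsBounded B) (hcl : ∀ y ∈ closure B, y ≠ p → y ∈ Ω)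
    (hkey : ∀ κ > 0, ∃ η > 0, ∀ f : (Fin n → ℂ) → ℂ, Measurable f → DifferentiableOn ℂ f Ω →
      ∫⁻ q in B ∩ ball p η, ENNReal.ofReal (‖f q‖ ^ 2) ≤
        ENNReal.ofReal κ * ∫⁻ x in Ω, ENNReal.ofReal (‖f x‖ ^ 2))
    {C : ℝ≥0∞} (hC : C ≠ ⊤) (f : ℕ → (Fin n → ℂ) → ℂ) (hfm : ∀ j, Measurable (f j))
    (hf : ∀ j, DifferentiableOn ℂ (f j) Ω)
    (hb : ∀ j, ∫⁻ x in Ω, ENNReal.ofReal (‖f j x‖ ^ 2) ≤ C)
    (h0 : ∀ x ∈ Ω, Tendsto (fun j => f j x) atTop (𝓝 0)) :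
    Tendsto (fun j => ∫⁻ x in B, ENNReal.ofReal (‖f j x‖ ^ 2)) atTop (𝓝 0) := by
  rw [ENNReal.tendsto_nhds_zero]
  intro ε hε
  obtain ⟨κ, hκ, hκC⟩ : ∃ κ > 0, ENNReal.ofReal κ * C ≤ ε / 2 := by
    have h1 : Tendsto (fun κ : ℝ => ENNReal.ofReal κ * C) (𝓝[>] 0) (𝓝 0) := by
      have h2 : Tendsto (fun κ : ℝ => ENNReal.ofReal κ) (𝓝[>] 0) (𝓝 0) := by
        have := (ENNReal.continuous_ofReal.tendsto 0).mono_left
          (nhdsWithin_le_nhds (s := Ioi (0 : ℝ)))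
        simpa using this
      have := ENNReal.Tendsto.mul_const h2 (Or.inr hC)
      simpa using this
    have h3 := (ENNReal.tendsto_nhds_zero.mp h1) (ε / 2) (ENNReal.half_pos hε.ne')
    obtain ⟨κ, h4, h5⟩ := (h3.and self_mem_nhdsWithin).exists
    exact ⟨κ, h5, h4⟩
  obtain ⟨η, hη, hk⟩ := hkey κ hκ
  set K := closure B \ ball p η with hK
  have hKc : IsCompact K := hBb.isCompact_closure.diff isOpen_ball
  have hKΩ : K ⊆ Ω := by
    intro y hy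
    apply hcl y hy.1
    rintro rfl
    exact hy.2 (mem_ball_self hη)
  obtain ⟨M, hM⟩ := compact_bound hΩ hC hKc hKΩ
  have hdom : Tendsto (fun j => ∫⁻ x in K, ENNReal.ofReal (‖f j x‖ ^ 2)) atTop
      (𝓝 (∫⁻ _ in K, (0 : ℝ≥0∞))) := by
    apply tendsto_lintegral_of_dominated_convergence (fun _ => ENNReal.ofReal (M ^ 2))
    · exact fun j => ENNReal.measurable_ofReal.comp ((hfm j).norm.pow_const 2)
    · intro j
      filter_upwards [ae_restrict_mem hKc.measurableSet] with x hx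
      exact ENNReal.ofReal_le_ofReal (pow_le_pow_left₀ (norm_nonneg _)
        (hM _ (hf j) (hb j) x hx) 2)
    · rw [lintegral_const, Measure.restrict_apply MeasurableSet.univ, univ_inter]
      exact ENNReal.mul_ne_top ENNReal.ofReal_ne_top hKc.measure_lt_top.ne
    · filter_upwards [ae_restrict_mem hKc.measurableSet] with x hx
      have h1 := ((h0 x (hKΩ hx)).norm.pow 2)
      have h2 := (ENNReal.continuous_ofReal.tendsto _).comp h1
      simpa [Function.comp_def] using h2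
  rw [lintegral_zero] at hdom
  filter_upwards [(ENNReal.tendsto_nhds_zero.mp hdom) (ε / 2) (ENNReal.half_pos hε.ne')] with j hj
  have hsub : B ⊆ (B ∩ ball p η) ∪ K := by
    intro y hy
    by_cases h : y ∈ ball p η
    · exact Or.inl ⟨hy, h⟩
    · exact Or.inr ⟨subset_closure hy, h⟩
  calc ∫⁻ x in B, ENNReal.ofReal (‖f j x‖ ^ 2)
      ≤ ∫⁻ x in (B ∩ ball p η) ∪ K, ENNReal.ofReal (‖f j x‖ ^ 2) := lintegral_mono_set hsub
    _ ≤ (∫⁻ x in B ∩ ball p η, ENNReal.ofReal (‖f j x‖ ^ 2)) +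
        ∫⁻ x in K, ENNReal.ofReal (‖f j x‖ ^ 2) := lintegral_union_le _ _ _
    _ ≤ ε / 2 + ε / 2 := by
        refine add_le_add ?_ hj
        exact (hk _ (hfm j) (hf j)).trans ((mul_le_mul_right (hb j) _).trans hκC)
    _ = ε := ENNReal.add_halves ε

end Pool.Agent.H809Z.Berg
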