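import Pool.Agent.H809Z.Berg.Key
import Pool.Agent.H809Z.Berg.Montel
import Pool.Agent.H809Z.Berg.Defs

open scoped Topology ENNReal NNReal
open MeasureTheory Filter Metric Set

namespace Pool.Agent.H809Z.Berg

open Pool.Agent.H809Z.BergDefs

variable {n : ℕ}

lemma measurable_indicator_of_continuousOn {Y : Type*} [TopologicalSpace Y] [MeasurableSpace Y]
    [BorelSpace Y] [Zero Y] {U : Set (Fin n → ℂ)} (hU : IsOpen U) {f : (Fin n → ℂ) → Y}
    (hf : ContinuousOn f U) : Measurable (U.indicator f) := by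
  classical
  have h2 := ContinuousOn.measurable_piecewise (s := U) hf
    (continuousOn_const (c := (0 : Y))) hU.measurableSet
  have h3 := Set.piecewise_eq_indicator (s := U) (f := f)
  rw [← h3]
  exact h2

lemma compact_of_key {Ω B : Set (Fin n → ℂ)} {p : Fin n → ℂ} (hΩ : IsOpen Ω) (hB : IsOpen B)
    (hBΩ : B ⊆ Ω) (hBb : Bornology.IsBounded B) (hcl : ∀ y ∈ closure B, y ≠ p → y ∈ Ω)
    (hkey : ∀ κ > 0, ∃ η > 0, ∀ f : (Fin n → ℂ) → ℂ, Measurable f → DifferentiableOn ℂ f Ω →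
      ∫⁻ q in B ∩ ball p η, ENNReal.ofReal (‖f q‖ ^ 2) ≤
        ENNReal.ofReal κ * ∫⁻ x in Ω, ENNReal.ofReal (‖f x‖ ^ 2)) :
    RestrictionIsCompact Ω B := by
  intro f C hf hC
  have hb : ∀ j, ∫⁻ x in Ω, ENNReal.ofReal (‖f j x‖ ^ 2) ≤ (C : ℝ≥0∞) ^ 2 := by
    intro j
    rw [← eLp_sq]
    exact pow_le_pow_left' (hC j) 2
  obtain ⟨g, φ, hφ, hg, hlim⟩ := montel hΩ (ENNReal.pow_ne_top ENNReal.coe_ne_top) f
    (fun j => (hf j).1) hb
  have hgm : AEStronglyMeasurable g (volume.restrict Ω) :=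
    hg.continuousOn.aestronglyMeasurable hΩ.measurableSet
  have hgC : eLpNorm g 2 (volume.restrict Ω) ≤ C := by
    apply Lp.eLpNorm_le_of_ae_tendsto (u := atTop) (f := fun j => f (φ j))
    · filter_upwards with j using hC _
    · exact fun j => (hf _).2.1
    · filter_upwards [ae_restrict_mem hΩ.measurableSet] with x hx using hlim x hx
  have hgL : MemLp g 2 (volume.restrict Ω) := ⟨hgm, hgC.trans_lt ENNReal.coe_lt_top⟩
  refine ⟨g, φ, ⟨hg.mono hBΩ, hgL.mono_measure (Measure.restrict_mono hBΩ le_rfl)⟩, hφ, ?_⟩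
  set F : ℕ → (Fin n → ℂ) → ℂ := fun j => Ω.indicator (f (φ j) - g) with hF
  have hdiff : ∀ j, DifferentiableOn ℂ (f (φ j) - g) Ω := fun j => (hf _).1.sub hg
  have hFm : ∀ j, Measurable (F j) := fun j =>
    measurable_indicator_of_continuousOn hΩ (hdiff j).continuousOn
  have hFeq : ∀ j, ∀ x ∈ Ω, F j x = (f (φ j) - g) x := fun j x hx => indicator_of_mem hx _
  have hFd : ∀ j, DifferentiableOn ℂ (F j) Ω := fun j => (hdiff j).congr (hFeq j)
  have hFint : ∀ j, ∀ S : Set (Fin n → ℂ), MeasurableSet S → S ⊆ Ω →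
      ∫⁻ x in S, ENNReal.ofReal (‖F j x‖ ^ 2) = eLpNorm (f (φ j) - g) 2 (volume.restrict S) ^ 2 := by
    intro j S hS hSΩ
    rw [eLp_sq]
    apply setLIntegral_congr_fun hS
    intro x hx
    simp only
    rw [hFeq j x (hSΩ hx)]
  have hFb : ∀ j, ∫⁻ x in Ω, ENNReal.ofReal (‖F j x‖ ^ 2) ≤ ((C : ℝ≥0∞) + C) ^ 2 := by
    intro j
    rw [hFint j Ω hΩ.measurableSet subset_rfl]
    apply pow_le_pow_left'
    exact (eLpNorm_sub_le (hf _).2.1 hgm (by norm_num)).trans (add_le_add (hC _) hgC)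
  have h0 : ∀ x ∈ Ω, Tendsto (fun j => F j x) atTop (𝓝 0) := by
    intro x hx
    have := (hlim x hx).sub_const (g x)
    rw [sub_self] at this
    exact this.congr fun j => (hFeq j x hx).symm
  have hfin := tendsto_of_key hΩ hBb hcl hkey
    (ENNReal.pow_ne_top (ENNReal.add_ne_top.mpr ⟨ENNReal.coe_ne_top, ENNReal.coe_ne_top⟩))
    F hFm hFd hFb h0
  simp only [fun j => hFint j B hB.measurableSet hBΩ] at hfin
  rw [ENNReal.tendsto_nhds_zero] at hfin ⊢
  intro ε hε
  filter_upwards [hfin (ε ^ 2) (ENNReal.pow_pos hε 2)] with j hj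
  exact (ENNReal.pow_le_pow_left_iff two_ne_zero).mp hj

/-- two defining functions of nested domains have positively proportional differentials -/
lemma tangency {r ρ : (Fin n → ℂ) → ℝ} {p : Fin n → ℂ} (hr : DifferentiableAt ℝ r p)
    (hρ : DifferentiableAt ℝ ρ p) (hr0 : r p = 0) (hρ0 : ρ p = 0) (hr1 : fderiv ℝ r p ≠ 0)
    (hρ1 : fderiv ℝ ρ p ≠ 0) (h : ∀ᶠ y in 𝓝 p, ρ y < 0 → r y < 0) :
    ∃ c : ℝ, 0 < c ∧ fderiv ℝ r p = c • fderiv ℝ ρ p := by
  set a := fderiv ℝ r p with ha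
  set b := fderiv ℝ ρ p with hb
  have line : ∀ (φ : (Fin n → ℂ) → ℝ), DifferentiableAt ℝ φ p → φ p = 0 → ∀ u : Fin n → ℂ,
      Tendsto (fun t : ℝ => t⁻¹ * φ (p + t • u)) (𝓝[>] 0) (𝓝 (fderiv ℝ φ p u)) := by
    intro φ hφ hφ0 u
    have a1 : HasDerivAt (fun t : ℝ => p + t • u) u 0 := by
      simpa using ((hasDerivAt_id (0 : ℝ)).smul_const u).const_add p
    have a2 : HasFDerivAt φ (fderiv ℝ φ p) (p + (0 : ℝ) • u) := by
      rw [zero_smul, add_zero]; exact hφ.hasFDerivAt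
    have a3 := (a2.comp_hasDerivAt (0 : ℝ) a1).tendsto_slope_zero_right
    simpa [hφ0] using a3
  have key : ∀ u, b u < 0 → a u ≤ 0 := by
    intro u hu
    have h1 := (line ρ hρ hρ0 u).eventually (gt_mem_nhds hu)
    have h2 : Tendsto (fun t : ℝ => p + t • u) (𝓝[>] 0) (𝓝 p) := by
      apply Tendsto.mono_left _ nhdsWithin_le_nhds
      exact Continuous.tendsto' (by fun_prop) _ _ (by simp)
    apply le_of_tendsto (line r hr hr0 u)
    filter_upwards [h1, h2.eventually h, self_mem_nhdsWithin] with t ht1 ht2 ht3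
    have ht : 0 < t⁻¹ := inv_pos.mpr ht3
    have h3 : ρ (p + t • u) < 0 := by
      by_contra hc
      exact absurd ht1 (not_lt.mpr (mul_nonneg ht.le (not_lt.mp hc)))
    exact (mul_neg_of_pos_of_neg ht (ht2 h3)).le
  obtain ⟨w, hw⟩ : ∃ w, b w < 0 := by
    obtain ⟨w, hw⟩ : ∃ w, b w ≠ 0 := by
      by_contra hc
      push Not at hc
      exact hρ1 (ContinuousLinearMap.ext hc)
    rcases lt_or_gt_of_ne hw with h1 | h1
    · exact ⟨w, h1⟩
    · exact ⟨-w, by rw [map_neg]; linarith⟩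
  have ker : ∀ u, b u = 0 → a u = 0 := by
    intro u hu
    by_contra hc
    have := key (w + ((1 - a w) / a u) • u) (by rw [map_add, map_smul, hu]; simpa using hw)
    rw [map_add, map_smul, smul_eq_mul, div_mul_cancel₀ _ hc] at this
    linarith
  have hprop : a = (a w / b w) • b := by
    ext u
    have := ker (u - (b u / b w) • w) (by
      rw [map_sub, map_smul, smul_eq_mul, div_mul_cancel₀ _ hw.ne, sub_self])
    rw [map_sub, map_smul, smul_eq_mul] at this
    simp only [smul_apply, smul_eq_mul]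
    have hw' := hw.ne
    field_simp at this ⊢
    linarith
  refine ⟨a w / b w, ?_, hprop⟩
  have h1 : 0 ≤ a w / b w := div_nonneg_of_nonpos (key w hw) hw.le
  rcases h1.lt_or_eq with h2 | h2
  · exact h2
  · exfalso
    apply hr1
    rw [hprop, ← h2, zero_smul]

lemma exists_normal {L : (Fin n → ℂ) →L[ℝ] ℝ} (hL : L ≠ 0) :
    ∃ N, L N = 1 ∧ L (Complex.I • N) = 0 := by
  obtain ⟨w, hw⟩ : ∃ w, L w ≠ 0 := by
    by_contra hc
    push Not at hc
    exact hL (ContinuousLinearMap.ext hc)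
  have h1 : cx L w ≠ 0 := by
    intro hc
    have := congrArg Complex.re hc
    simp [cx] at this
    exact hw this
  refine ⟨(cx L w)⁻¹ • w, ?_, ?_⟩
  · rw [cx_re, inv_mul_cancel₀ h1, Complex.one_re]
  · rw [smul_smul, cx_re, mul_assoc, inv_mul_cancel₀ h1, mul_one, Complex.I_re]

lemma fderiv2_sub {r ρ : (Fin n → ℂ) → ℝ} {p : Fin n → ℂ} (hr : ContDiffAt ℝ 2 r p)
    (hρ : ContDiffAt ℝ 2 ρ p) : fderiv ℝ (fderiv ℝ (ρ - r)) p =
      fderiv ℝ (fderiv ℝ ρ) p - fderiv ℝ (fderiv ℝ r) p := by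
  have h1 : fderiv ℝ (ρ - r) =ᶠ[𝓝 p] fderiv ℝ ρ - fderiv ℝ r := by
    filter_upwards [hr.eventually (by simp), hρ.eventually (by simp)] with y h1 h2
    exact fderiv_sub (h2.differentiableAt (by norm_num)) (h1.differentiableAt (by norm_num))
  rw [h1.fderiv_eq]
  have h2 : ContDiffAt ℝ 1 (fderiv ℝ r) p := hr.fderiv_right (by norm_num)
  have h3 : ContDiffAt ℝ 1 (fderiv ℝ ρ) p := hρ.fderiv_right (by norm_num)
  exact fderiv_sub (h3.differentiableAt (by norm_num)) (h2.differentiableAt (by norm_num))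

/-- the real inner product on `ℂⁿ` -/
noncomputable def ip (n : ℕ) : (Fin n → ℂ) →L[ℝ] (Fin n → ℂ) →L[ℝ] ℝ :=
  ∑ j : Fin n, (innerSL ℝ : ℂ →L[ℝ] ℂ →L[ℝ] ℝ).bilinearComp
    (ContinuousLinearMap.proj j) (ContinuousLinearMap.proj j)

lemma ip_apply (x y : Fin n → ℂ) : ip n x y = ∑ j, inner ℝ (x j) (y j) := by
  simp [ip]

lemma ip_self (x : Fin n → ℂ) : ip n x x = ∑ j, ‖x j‖ ^ 2 := by
  rw [ip_apply]
  exact Finset.sum_congr rfl fun j _ => real_inner_self_eq_norm_sq _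

lemma ip_comm (x y : Fin n → ℂ) : ip n x y = ip n y x := by
  rw [ip_apply, ip_apply]
  exact Finset.sum_congr rfl fun j _ => real_inner_comm _ _

lemma ip_pos {x : Fin n → ℂ} (hx : x ≠ 0) : 0 < ip n x x := by
  rw [ip_self]
  obtain ⟨j, hj⟩ := Function.ne_iff.mp hx
  exact Finset.sum_pos' (fun i _ => by positivity) ⟨j, Finset.mem_univ _,
    pow_pos (norm_pos_iff.mpr hj) 2⟩

/-- a multiple of the defining function of the ball -/
noncomputable def rho (k : ℝ) (c : Fin n → ℂ) (R : ℝ) (y : Fin n → ℂ) : ℝ :=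
  k * (ip n (y - c) (y - c) - R ^ 2)

lemma hasFDerivAt_rho (k : ℝ) (c : Fin n → ℂ) (R : ℝ) (y : Fin n → ℂ) :
    HasFDerivAt (rho k c R) ((2 * k) • ip n (y - c)) y := by
  have h1 : HasFDerivAt (fun y : Fin n → ℂ => y - c) (ContinuousLinearMap.id ℝ _) y :=
    (hasFDerivAt_id y).sub_const c
  have h2 := (((ip n).hasFDerivAt_of_bilinear h1 h1).sub_const (R ^ 2)).const_mul k
  refine h2.congr_fderiv ?_
  ext u
  simp [ip_comm u]
  ring

lemma fderiv_rho (k : ℝ) (c : Fin n → ℂ) (R : ℝ) :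
    fderiv ℝ (rho k c R) = fun y => (2 * k) • ip n (y - c) :=
  funext fun y => (hasFDerivAt_rho k c R y).fderiv

lemma fderiv2_rho (k : ℝ) (c : Fin n → ℂ) (R : ℝ) (y : Fin n → ℂ) :
    fderiv ℝ (fderiv ℝ (rho k c R)) y = (2 * k) • ip n := by
  rw [fderiv_rho]
  have h1 : HasFDerivAt (fun y : Fin n → ℂ => y - c) (ContinuousLinearMap.id ℝ _) y :=
    (hasFDerivAt_id y).sub_const c
  have h2 := ((ip n).hasFDerivAt.comp y h1).const_smul (2 * k)
  exact h2.fderiv

lemma contDiff_rho (k : ℝ) (c : Fin n → ℂ) (R : ℝ) : ContDiff ℝ 2 (rho k c R) := by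
  unfold rho
  have h1 : ContDiff ℝ 2 (fun y : Fin n → ℂ => y - c) := contDiff_id.sub contDiff_const
  exact contDiff_const.mul ((((ip n).contDiff.comp h1).clm_apply h1).sub contDiff_const)

lemma mem_ball_iff {k : ℝ} (hk : 0 < k) (c : Fin n → ℂ) (R : ℝ) (y : Fin n → ℂ) :
    y ∈ euclBall c R ↔ rho k c R y < 0 := by
  unfold rho euclBall
  rw [mul_neg_iff, ip_self]
  simp only [mem_ofPred_eq, Pi.sub_apply]
  constructor
  · intro h; left; exact ⟨hk, by linarith⟩
  · rintro (h | h)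
    · linarith [h.2]
    · linarith [h.1]

lemma euclBall_eq (c : Fin n → ℂ) (R : ℝ) : euclBall c R = {y | rho 1 c R y < 0} :=
  Set.ext fun y => mem_ball_iff one_pos c R y

lemma isOpen_euclBall (c : Fin n → ℂ) (R : ℝ) : IsOpen (euclBall c R) := by
  rw [euclBall_eq]
  exact isOpen_lt (contDiff_rho 1 c R).continuous continuous_const

lemma isBounded_euclBall (c : Fin n → ℂ) {R : ℝ} (hR : 0 < R) :
    Bornology.IsBounded (euclBall c R) := by
  apply (isBounded_ball (x := c) (r := R)).subset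
  intro y hy
  rw [mem_ball, dist_pi_lt_iff hR]
  intro j
  rw [dist_eq_norm]
  have h1 : ‖y j - c j‖ ^ 2 ≤ ∑ i, ‖y i - c i‖ ^ 2 :=
    Finset.single_le_sum (f := fun i => ‖y i - c i‖ ^ 2) (fun i _ => by positivity)
      (Finset.mem_univ j)
  exact lt_of_pow_lt_pow_left₀ 2 hR.le (h1.trans_lt hy)

theorem main {Ω : Set (Fin n → ℂ)} {c p : Fin n → ℂ} {R : ℝ} (hR : 0 < R) (hΩ : IsOpen Ω)
    (hsub : euclBall c R ⊆ Ω) (hfr : frontier Ω ∩ frontier (euclBall c R) = {p})
    (hnc : ¬ RestrictionIsCompact Ω (euclBall c R)) {r : (Fin n → ℂ) → ℝ}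
    (hr : IsLocalDefiningFunction Ω p r) {v : Fin n → ℂ} (hv : v ≠ 0)
    (h1 : fderiv ℝ r p v = 0) (h2 : fderiv ℝ r p (Complex.I • v) = 0) :
    0 < leviForm r p v := by
  by_contra hL
  apply hnc
  obtain ⟨U, hU, hpU, hrU, hdU, hΩU⟩ := hr
  have hUn : U ∈ 𝓝 p := hU.mem_nhds hpU
  have hΩU' : ∀ y ∈ U, y ∈ Ω ↔ r y < 0 := by
    intro y hy
    constructor
    · intro h
      have : y ∈ Ω ∩ U := ⟨h, hy⟩
      rw [hΩU] at this
      exact this.2
    · intro h
      have : y ∈ {z | z ∈ U ∧ r z < 0} := ⟨hy, h⟩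
      rw [← hΩU] at this
      exact this.1
  have hp : p ∈ frontier Ω ∩ frontier (euclBall c R) := by rw [hfr]; rfl
  have hB := isOpen_euclBall c R
  -- measurable modification of `r`
  set r' := U.indicator r with hr'
  have hr'm : Measurable r' := measurable_indicator_of_continuousOn hU hrU.continuousOn
  have heq : r' =ᶠ[𝓝 p] r := by
    filter_upwards [hUn] with y hy using indicator_of_mem hy _
  have hrp : ContDiffAt ℝ 2 r p := hrU.contDiffAt hUn
  have hr'p : ContDiffAt ℝ 2 r' p := hrp.congr_of_eventuallyEq heq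
  have hd1 : fderiv ℝ r' p = fderiv ℝ r p := heq.fderiv_eq
  have hd2 : fderiv ℝ (fderiv ℝ r') p = fderiv ℝ (fderiv ℝ r) p := heq.fderiv.fderiv_eq
  have hΩU'' : ∀ y ∈ U, y ∈ Ω ↔ r' y < 0 := by
    intro y hy
    rw [hr', indicator_of_mem hy]
    exact hΩU' y hy
  have hr0 : r' p = 0 := by
    have a1 : p ∉ Ω := by
      have := hp.1
      rw [hΩ.frontier_eq] at this
      exact this.2
    have a2 : 0 ≤ r' p := not_lt.mp fun hc => a1 ((hΩU'' p hpU).mpr hc)
    have a3 : r' p ≤ 0 := by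
      by_contra hc
      have b1 : ∀ᶠ y in 𝓝 p, 0 < r' y := hr'p.continuousAt.eventually (lt_mem_nhds (not_le.mp hc))
      obtain ⟨y, hy1, hy2⟩ := mem_closure_iff_nhds.mp (frontier_subset_closure hp.1) _
        (b1.and hUn)
      have := (hΩU'' y hy1.2).mp hy2
      linarith [hy1.1]
    linarith
  have hρ0 : ip n (p - c) (p - c) = R ^ 2 := by
    have := hp.2
    rw [euclBall_eq] at this
    have h3 := frontier_lt_subset_eq (contDiff_rho 1 c R).continuous continuous_const this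
    simp only [mem_ofPred_eq, rho] at h3
    linarith
  have hρ0' : ∀ k, rho k c R p = 0 := by
    intro k; unfold rho; rw [hρ0, sub_self, mul_zero]
  have hρ1 : fderiv ℝ (rho 1 c R) p ≠ 0 := by
    intro hc
    rw [fderiv_rho] at hc
    have := congrArg (fun L : (Fin n → ℂ) →L[ℝ] ℝ => L (p - c)) hc
    simp only [smul_apply, smul_eq_mul, hρ0, zero_apply] at this
    nlinarith [pow_pos hR 2]
  obtain ⟨k, hk, hkd⟩ := tangency (hr'p.differentiableAt (by norm_num))
    ((contDiff_rho 1 c R).differentiable (by norm_num) p) hr0 (hρ0' 1)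
    (by rw [hd1]; exact hdU p hpU) hρ1 (by
      filter_upwards [hUn] with y hy hlt
      exact (hΩU'' y hy).mp (hsub ((mem_ball_iff one_pos c R y).mpr hlt)))
  have hdk : fderiv ℝ (rho k c R) p = fderiv ℝ r' p := by
    rw [hkd, fderiv_rho, fderiv_rho, smul_smul]
    congr 1
    ring
  obtain ⟨N, hN1, hN2⟩ := exists_normal (L := fderiv ℝ r' p) (by rw [hd1]; exact hdU p hpU)
  have hρp : ContDiffAt ℝ 2 (rho k c R) p := (contDiff_rho k c R).contDiffAt
  -- choose the direction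
  obtain ⟨v', hv1, hv2, hv3, hv4⟩ : ∃ v', fderiv ℝ r' p v' = 0 ∧
      fderiv ℝ r' p (Complex.I • v') = 0 ∧ levi r' p v' ≤ 0 ∧
      0 < fderiv ℝ (fderiv ℝ (rho k c R - r')) p v' v' := by
    have hII : Complex.I • Complex.I • v = -v := by
      rw [smul_smul, Complex.I_mul_I, neg_one_smul]
    have hIv : Complex.I • v ≠ 0 := smul_ne_zero Complex.I_ne_zero hv
    have hL' := not_lt.mp hL
    unfold leviForm at hL'
    have p1 := mul_pos hk (ip_pos hv)
    have p2 := mul_pos hk (ip_pos hIv)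
    by_cases hcase : 0 < fderiv ℝ (fderiv ℝ (rho k c R - r')) p v v
    · refine ⟨v, by rw [hd1]; exact h1, by rw [hd1]; exact h2, ?_, hcase⟩
      unfold levi
      rw [hd2]
      exact hL'
    · refine ⟨Complex.I • v, by rw [hd1]; exact h2, ?_, ?_, ?_⟩
      · rw [hII, map_neg, hd1, h1, neg_zero]
      · unfold levi
        rw [hd2, hII]
        simp only [map_neg, neg_apply, neg_neg]
        linarith
      · rw [fderiv2_sub hr'p hρp, fderiv2_rho, hd2] at hcase ⊢
        simp only [sub_apply, smul_apply, smul_eq_mul] at hcase ⊢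
        linarith
  have hS : Setup r' (rho k c R) p N v' := ⟨hr'p, hρp, hdk, hN1, hN2, hv1, hv2⟩
  apply compact_of_key (p := p) hΩ hB hsub (isBounded_euclBall c hR)
  · intro y hy hyp
    by_contra hc
    have a1 : y ∈ frontier Ω := by
      rw [hΩ.frontier_eq]
      exact ⟨closure_mono hsub hy, hc⟩
    have a2 : y ∈ frontier (euclBall c R) := by
      rw [hB.frontier_eq]
      exact ⟨hy, fun h => hc (hsub h)⟩
    have a3 : y ∈ frontier Ω ∩ frontier (euclBall c R) := ⟨a1, a2⟩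
    rw [hfr] at a3
    exact hyp a3
  · intro κ hκ
    exact hS.key hΩ hB hsub hUn hr0 hr'm (contDiff_rho k c R).continuous.measurable hΩU''
      (fun y _ => mem_ball_iff hk c R y) hv3 hv4 hκ

end Pool.Agent.H809Z.Berg
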